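import Pool.Agent.Helper97.TRI.Adapted

/-!
# TRI, block B7: one place
-/

set_option autoImplicit false

namespace Pool.Agent.TRI

open Module Pool.Agent.SQ

section

variable {k E : Type*} [Field k] [Field E] [Algebra k E]

/-- the values on `V ^ m` -/
private theorem val_pow67 {V : Submodule k E} {ω : E → ℝ} (h : RV k ω) {c : ℝ} (hV : ∀ x ∈ V, x ≠ 0 → 0 ≤ ω x + c)
    (m : ℕ) : ∀ x ∈ V ^ m, x ≠ 0 → -(m * c) ≤ ω x := by
  have h1 : ω 1 = 0 := by
    have h2 := h.mul 1 1 one_ne_zero one_ne_zero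
    rw [mul_one] at h2
    linarith
  have key : ∀ m : ℕ, V ^ m ≤ lev h (-(m * c)) := by
    intro m
    induction m with
    | zero =>
      rw [pow_zero, Submodule.one_le]
      refine Or.inr ?_
      rw [h1]
      simp
    | succ m ih =>
      rw [pow_succ, Submodule.mul_le]
      intro x hx y hy
      by_cases hx0 : x = 0
      · rw [hx0, zero_mul]
        exact Submodule.zero_mem _
      by_cases hy0 : y = 0
      · rw [hy0, mul_zero]
        exact Submodule.zero_mem _
      refine Or.inr ?_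
      rw [h.mul x y hx0 hy0]
      have h3 := hV y hy hy0
      rcases ih hx with h4 | h4
      · exact absurd h4 hx0
      · push_cast
        linarith
  intro x hx hx0
  rcases key m hx with h4 | h4
  · exact absurd h4 hx0
  · exact h4

theorem gam_le {A : Type*} [Fintype A] {V : Submodule k E} [FiniteDimensional k V] {ω : A → E → ℝ} {c : A → ℝ} {r : ℕ} {h : ℝ}
    (hD : Dat V ω c r h) (s : A) {γ : ℝ} {f : ℕ} (hs : DVal k (ω s) γ f) (Q : Finset A) (t : A → ℝ) (ht : ∀ α ∈ Q, 0 < t α)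
    (hQ : ∀ α ∈ Q, ∀ x, x ≠ 0 → ω α x = t α * ω s x) {T : ℝ} (hT : T ∈ Gr V) :
    (∑ α ∈ Q, t α) * γ / f * T ≤ h := by
  classical
  obtain ⟨C, hC⟩ := hT
  obtain ⟨x₀, hx₀, hx₀0, hx₀s⟩ := hD.eq s
  -- the sizes
  have hc : ∀ α ∈ Q, c α = t α * c s := by
    intro α hα
    have h1 := hD.ge α x₀ hx₀ hx₀0
    rw [hQ α hα x₀ hx₀0] at h1
    obtain ⟨y, hy, hy0, hyα⟩ := hD.eq α
    rw [hQ α hα y hy0] at hyα
    have h2 := hD.ge s y hy hy0
    have h3 := mul_nonneg (ht α hα).le h2
    have h4 : t α * (ω s x₀ + c s) = 0 := by rw [hx₀s, mul_zero]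
    rw [mul_add] at h3 h4
    linarith
  set u : ℝ := ∑ α ∈ Q, t α with hu
  have hu0 : 0 ≤ u := Finset.sum_nonneg fun α hα => (ht α hα).le
  have hγ := hs.γ0
  have hf : (0 : ℝ) < f := by exact_mod_cast hs.f0
  have key : ∀ m : ℕ, 0 < m → u * γ / f * T * m ≤ h * m + (u * γ + u * γ / f * C) := by
    intro m hm
    obtain ⟨n, hn⟩ : ∃ n : ℕ, n = finrank k ↥(V ^ m) := ⟨_, rfl⟩
    have hfd : FiniteDimensional k ↥(V ^ m) :=
      (Submodule.fg_iff_finiteDimensional _).1 (((Submodule.fg_iff_finiteDimensional V).2 inferInstance).pow m)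
    have hn0 : 0 < n := by
      have h1 : V ^ m ≠ ⊥ := by
        intro h0
        have h2 := Submodule.pow_mem_pow V hx₀ m
        rw [h0, Submodule.mem_bot] at h2
        exact pow_ne_zero m hx₀0 h2
      rw [hn]
      exact Nat.pos_of_ne_zero fun h0 => h1 (Submodule.finrank_eq_zero.1 h0)
    have hv := fun α => val_pow67 (hD.rv α) (hD.ge α) m
    obtain ⟨z, hz1, hz2, hz3⟩ := adapted hs (V ^ m) (-(m * c s)) (hv s)
    have hlt : n - 1 < finrank k ↥(V ^ m) := by omega
    obtain ⟨w, hw⟩ : ∃ w, w = z ⟨n - 1, hlt⟩ := ⟨_, rfl⟩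
    have hw0 : w ≠ 0 := by
      rw [hw]
      exact hz1.ne_zero _
    have hwV : w ∈ V ^ m := by
      rw [hw]
      exact hz2 _
    have hwz : -(m * c s) + γ * (((n - 1) / f : ℕ) : ℝ) ≤ ω s w := by
      rw [hw]
      exact hz3 ⟨n - 1, hlt⟩
    have h1 := hD.I1 m w hwV hw0
    have h2 : ∑ α ∈ Q, (ω α w + m * c α) ≤ ∑ α, (ω α w + m * c α) :=
      Finset.sum_le_sum_of_subset_of_nonneg (Finset.subset_univ _) fun α _ _ => by
        have := hv α w hwV hw0
        linarith
    have h3 : ∑ α ∈ Q, (ω α w + m * c α) = u * (ω s w + m * c s) := by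
      rw [hu, Finset.sum_mul]
      refine Finset.sum_congr rfl fun α hα => ?_
      rw [hQ α hα w hw0, hc α hα]
      ring
    have h4 : (n : ℝ) / f - 1 ≤ (((n - 1) / f : ℕ) : ℝ) := by
      rw [sub_le_iff_le_add, div_le_iff₀ hf]
      have h5 := Nat.div_add_mod (n - 1) f
      have h6 := Nat.mod_lt (n - 1) hs.f0
      have h7 : n ≤ ((n - 1) / f + 1) * f := by
        have : f * ((n - 1) / f) = (n - 1) / f * f := mul_comm _ _
        rw [add_mul, one_mul]
        omega
      exact_mod_cast h7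
    have h5 : u * (γ * ((n : ℝ) / f - 1)) ≤ m * h := by
      have h6 := mul_le_mul_of_nonneg_left h4 hγ.le
      have h7 : γ * ((n : ℝ) / f - 1) ≤ ω s w + m * c s := by linarith
      have h8 := mul_le_mul_of_nonneg_left h7 hu0
      linarith
    have h6 := hC m
    rw [← hn] at h6
    have h7 : 0 ≤ u * γ / f := by positivity
    have h8 := mul_le_mul_of_nonneg_left h6 h7
    have h9 : u * (γ * ((n : ℝ) / f - 1)) = u * γ / f * n - u * γ := by
      field_simp
    rw [h9] at h5
    rw [mul_add] at h8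
    have h10 : u * γ / f * T * m = u * γ / f * (T * m) := by ring
    rw [h10]
    linarith
  by_contra hcon
  push Not at hcon
  set a : ℝ := u * γ / f * T with ha
  set K : ℝ := u * γ + u * γ / f * C with hK
  obtain ⟨m, hm⟩ := exists_nat_gt (K / (a - h))
  have h1 : 0 < a - h := by linarith
  have h2 : K < m * (a - h) := (div_lt_iff₀ h1).1 hm
  have h3 := key (m + 1) (Nat.succ_pos m)
  push_cast at h3
  nlinarith

end

end Pool.Agent.TRI
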