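import Pool.Agent.Helper67.TRI.ArithC
import Pool.Agent.Helper17.TRI.A1

/-!
# TRI, block A2: the arithmetic
-/

set_option autoImplicit false

namespace Pool.Agent.TRI

open Module MvPolynomial Pool.Agent.SQ
open Pool.Agent.Helper64.Vojta (Pl nv sn above)
open Pool.Agent.Chart (fld dg crd hgt val lam)

universe u

theorem arith {k : Type u} [Field k] [NumberField k] {N q r : ℕ} (l : Fin q → Fin (N + 1) → k) (S : Finset (Pl k)) (C : ℝ)
    (x : ℕ → Fin (N + 1) → AlgebraicClosure k) (hx : Function.Injective x) (h1 : ∀ a, ∃ j, x a j = 1) (hr : ∀ a, dg (x a) ≤ r)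
    (hl : ∀ a i, val (l i) (x a) ≠ 0) (hS : ∀ a, q * hgt (x a) - C ≤ ∑ ν ∈ S, ∑ i, lam (l i) ν (x a)) :
    ∃ (E : Type u) (_ : Field E) (_ : Algebra k E) (ξ : Fin (N + 1) → E) (r' : ℕ) (A : Type u) (_ : Fintype A) (ω : A → E → ℝ)
      (c : A → ℝ) (h : ℝ), r' ≤ r ∧ (∃ j, ξ j = 1) ∧ IntermediateField.adjoin k (Set.range ξ) = ⊤ ∧
      (∃ j, Transcendental k (ξ j)) ∧
      (∀ f : MvPolynomial (Fin (N + 1)) k, (aeval ξ f = 0 → {a | aeval (x a) f = 0}.Infinite) ∧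
        ((∀ a, aeval (x a) f = 0) → aeval ξ f = 0)) ∧
      Dat (Submodule.span k (Set.range ξ)) ω c r' h ∧
      (∀ i, lv (l i) ξ ≠ 0) ∧ ∀ i, h ≤ ∑ α, (ω α (lv (l i) ξ) + c α) :=
  arith_of (fun B => northcott r B) l S C x hx h1 hr hl hS

end Pool.Agent.TRI
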