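import Pool.Agent.Helper6.TRI.Defs
import Pool.Agent.Helper42.SQ.GERg
import Pool.Agent.Helper42.SQ.OMg
import Pool.Agent.Helper42.SQ.LVg
import Pool.Agent.Helper67.SQ4.VERm

/-!
# TRI, block A2, part A: the valuations of a sequence of points
-/

set_option autoImplicit false

namespace Pool.Agent.TRI

open Module MvPolynomial Filter Pool.Agent.SQ
open Pool.Agent.Helper64.Vojta (Pl nv sn above)
open Pool.Agent.Chart (fld dg crd hgt val lam)

universe u

section germs

variable {k : Type u} [Field k] [NumberField k] {G : Type} [Group G] [Fintype G] {D : SqG k G} (F : GFG D)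

theorem rp_zero' : ∀ᶠ n in (D.U : Filter ℕ), F.rp 0 n = 0 := by
  have h := F.rp_alg 0
  rw [map_zero] at h
  filter_upwards [h] with n hn
  rw [hn, map_zero]

theorem posH' (D : SqG k G) : ∀ᶠ n in (D.U : Filter ℕ), 0 < D.H n := D.H1.eventually_gt_atTop 0

theorem const_H' (D : SqG k G) (c : ℝ) : Tendsto (fun n => c / D.H n) (D.U : Filter ℕ) (nhds 0) :=
  D.H1.const_div_atTop c

variable {N : ℕ} (x : ∀ n, Fin (N + 1) → D.L n) (ξ : Fin (N + 1) → F.K)
  (hξ : ∀ j, ∀ᶠ n in (D.U : Filter ℕ), F.rp (ξ j) n = x n j)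

include hξ

theorem rp_aeval' (f : MvPolynomial (Fin (N + 1)) k) : ∀ᶠ n in (D.U : Filter ℕ), F.rp (aeval ξ f) n = aeval (x n) f := by
  induction f using MvPolynomial.induction_on with
  | C c =>
    filter_upwards [F.rp_alg c] with n hn
    rw [aeval_C, aeval_C, hn]
  | add p q hp hq =>
    filter_upwards [hp, hq, F.rp_add (aeval ξ p) (aeval ξ q)] with n h1 h2 h3
    rw [map_add, map_add, h3, h1, h2]
  | mul_X p j hp =>
    filter_upwards [hp, hξ j, F.rp_mul (aeval ξ p) (ξ j)] with n h1 h2 h3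
    rw [map_mul, map_mul, aeval_X, aeval_X, h3, h1, h2]

theorem aeval_eq_zero' (f : MvPolynomial (Fin (N + 1)) k) :
    aeval ξ f = 0 ↔ ∀ᶠ n in (D.U : Filter ℕ), aeval (x n) f = 0 := by
  have h1 := rp_aeval' F x ξ hξ f
  constructor
  · intro h
    rw [h] at h1
    filter_upwards [rp_zero' F, h1] with n h2 h3
    rw [← h3, h2]
  · intro h
    refine F.rp_inj _ _ ?_
    filter_upwards [rp_zero' F, h1, h] with n h2 h3 h4
    rw [h3, h4, h2]

theorem aeval_ne_zero' (f : MvPolynomial (Fin (N + 1)) k) :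
    aeval ξ f ≠ 0 ↔ ∀ᶠ n in (D.U : Filter ℕ), aeval (x n) f ≠ 0 := by
  rw [Ne, aeval_eq_zero' F x ξ hξ f, ← Ultrafilter.eventually_not]

theorem loc_tendsto' (hx : Ptg D x) (d : ℕ) (f : MvPolynomial (Fin (N + 1)) k) (hf : aeval ξ f ≠ 0) (v : Pl k) (g : G) :
    Tendsto (fun n => (d * Real.log (mxn (D.N n v) fun j => D.s n g (x n j)) -
      Real.log (D.N n v (D.s n g (aeval (x n) f)))) / D.H n) (D.U : Filter ℕ)
      (nhds (omg F v (F.s g (aeval ξ f)) + d * cg D x v g)) := by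
  have h1 := (cg_tendsto x hx v g).const_mul (d : ℝ)
  have h2 := omg_tendsto F v (F.s g (aeval ξ f)) ((map_ne_zero (F.s g)).2 hf)
  refine (h2.add h1).congr' ?_
  filter_upwards [F.rp_s g (aeval ξ f), rp_aeval' F x ξ hξ f] with n e1 e2
  rw [e1, e2]
  ring

/-- the inequality of Liouville -/
theorem liou' (hx : Ptg D x) (P : Finset (Pl k)) {m : ℕ} (f : MvPolynomial (Fin (N + 1)) k) (hf : f.IsHomogeneous m)
    (h0 : aeval ξ f ≠ 0) : ∑ v ∈ P, ∑ g, (omg F v (F.s g (aeval ξ f)) + m * cg D x v g) ≤ m := by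
  obtain ⟨C, hC⟩ := liouville_g G f hf P
  have h1 := tendsto_finsetSum P fun v _ => tendsto_finsetSum Finset.univ fun g _ =>
    loc_tendsto' F x ξ hξ hx m f h0 v g
  have h2 := (const_H' D C).const_add (m : ℝ)
  rw [add_zero] at h2
  refine le_of_tendsto_of_tendsto h1 h2 ?_
  filter_upwards [(aeval_ne_zero' F x ξ hξ f).1 h0, posH' D] with n h3 h5
  have h7 := hC (D.L n) (D.s n) (D.N n) (D.qs n) (x n) (hx.1 n) h3
  rw [← hx.2 n] at h7
  simp only [← Finset.sum_div]
  rw [div_le_iff₀ h5, add_mul, div_mul_cancel₀ _ h5.ne']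
  exact h7

omit hξ in
/-- the elements of `k(ξ)` are invariant under the stabiliser -/
theorem fix' (Hs : Subgroup G) (hH : ∀ a, ∀ h ∈ Hs, ∀ j, D.s a h (x a j) = x a j)
    (hξ : ∀ j, ∀ᶠ n in (D.U : Filter ℕ), F.rp (ξ j) n = x n j) (h : G) (hh : h ∈ Hs) (z : F.K)
    (hz : z ∈ IntermediateField.adjoin k (Set.range ξ)) : F.s h z = z := by
  induction hz using IntermediateField.adjoin_induction with
  | mem z hz =>
    obtain ⟨j, rfl⟩ := hz
    refine F.rp_inj _ _ ?_
    filter_upwards [F.rp_s h (ξ j), hξ j] with n h1 h2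
    rw [h1, h2, hH n h hh j]
  | algebraMap c => exact AlgEquiv.commutes _ c
  | add a b _ _ ha hb => rw [map_add, ha, hb]
  | inv a _ ha => rw [map_inv₀, ha]
  | mul a b _ _ ha hb => rw [map_mul, ha, hb]

omit hξ in
theorem cg_inv' (Hs : Subgroup G) (hH : ∀ a, ∀ h ∈ Hs, ∀ j, D.s a h (x a j) = x a j) (v : Pl k) (g h : G) (hh : h ∈ Hs) :
    cg D x v (g * h) = cg D x v g := by
  unfold cg
  congr 1
  funext n
  congr 3
  funext j
  rw [map_mul, AlgEquiv.mul_apply, hH n h hh j]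

omit hξ [NumberField k] in
theorem hom_fd' (e : ℕ) : FiniteDimensional k (homogeneousSubmodule (Fin (N + 1)) k e) := by
  rw [← homogeneousSubmodule_one_pow, homogeneousSubmodule_one_eq_span_X]
  have h1 : FiniteDimensional k (Submodule.span k (Set.range (X : Fin (N + 1) → MvPolynomial (Fin (N + 1)) k))) :=
    FiniteDimensional.span_of_finite k (Set.finite_range _)
  rw [← Submodule.fg_iff_finiteDimensional] at h1 ⊢
  exact h1.pow e

omit hξ [NumberField k] in
theorem map_hom' {K : Type u} [Field K] [Algebra k K] (ξ : Fin (N + 1) → K) (e : ℕ) :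
    (homogeneousSubmodule (Fin (N + 1)) k e).map (aeval ξ).toLinearMap = Submodule.span k (Set.range ξ) ^ e := by
  rw [← homogeneousSubmodule_one_pow, homogeneousSubmodule_one_eq_span_X]
  have h1 := Submodule.map_pow (Submodule.span k (Set.range (X : Fin (N + 1) → MvPolynomial (Fin (N + 1)) k)))
    (aeval (R := k) ξ) e
  refine h1.trans ?_
  congr 1
  rw [Submodule.map_span, ← Set.range_comp]
  congr 2
  funext j
  exact aeval_X ξ j

theorem hilb_eq' (e : ℕ) : hilb (vanI D x) e = finrank k ↥(Submodule.span k (Set.range ξ) ^ e) := by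
  have := hom_fd' (k := k) (N := N) e
  rw [← map_hom' ξ e]
  unfold hilb
  have h1 : ∀ {W : Type u} [AddCommGroup W] [Module k W] (L : MvPolynomial (Fin (N + 1)) k →ₗ[k] W),
      (homogeneousSubmodule (Fin (N + 1)) k e).map L =
      LinearMap.range (L.comp (homogeneousSubmodule (Fin (N + 1)) k e).subtype) := by
    intro W _ _ L
    rw [LinearMap.range_comp, Submodule.range_subtype]
  rw [h1, h1]
  rw [← (LinearMap.quotKerEquivRange _).finrank_eq, ← (LinearMap.quotKerEquivRange _).finrank_eq]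
  have h2 : LinearMap.ker ((Ideal.Quotient.mkₐ k (vanI D x)).toLinearMap.comp (homogeneousSubmodule (Fin (N + 1)) k e).subtype) =
      LinearMap.ker ((aeval (R := k) ξ).toLinearMap.comp (homogeneousSubmodule (Fin (N + 1)) k e).subtype) := by
    ext p
    have h3 : p ∈ LinearMap.ker ((Ideal.Quotient.mkₐ k (vanI D x)).toLinearMap.comp
        (homogeneousSubmodule (Fin (N + 1)) k e).subtype) ↔ p.1 ∈ vanI D x := Ideal.Quotient.eq_zero_iff_mem
    have h4 : p ∈ LinearMap.ker ((aeval (R := k) ξ).toLinearMap.comp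
        (homogeneousSubmodule (Fin (N + 1)) k e).subtype) ↔ aeval ξ p.1 = 0 := Iff.rfl
    rw [h3, h4, aeval_eq_zero' F x ξ hξ]
    rfl
  rw [h2]

theorem li' {ι : Type*} [Fintype ι] (f : ι → MvPolynomial (Fin (N + 1)) k)
    (hI : LinearIndependent k fun i => aeval ξ (f i)) : LinearIndependent k fun i => Ideal.Quotient.mk (vanI D x) (f i) := by
  classical
  rw [Fintype.linearIndependent_iff] at hI ⊢
  intro c hc
  refine hI c ?_
  have h1 : ∑ i, c i • Ideal.Quotient.mk (vanI D x) (f i) = Ideal.Quotient.mk (vanI D x) (∑ i, c i • f i) := by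
    rw [map_sum]
    refine Finset.sum_congr rfl fun i _ => ?_
    exact ((Ideal.Quotient.mkₐ k (vanI D x)).toLinearMap.map_smul (c i) (f i)).symm
  rw [h1, Ideal.Quotient.eq_zero_iff_mem] at hc
  have h2 := (aeval_eq_zero' F x ξ hξ _).2 hc
  rw [map_sum] at h2
  simpa only [map_smul] using h2

/-- the inequality of Schmidt -/
theorem schm' {δ : ℕ} (hδ : 0 < δ) (hx : Ptg D x) (P : Finset (Pl k)) (Hs : Subgroup G)
    (hH : ∀ a, ∀ h ∈ Hs, ∀ j, D.s a h (x a j) = x a j) {r : ℕ} (ρ : Fin r → G) (hρ : ∀ g, ∃! j, (ρ j)⁻¹ * g ∈ Hs)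
    (B : Pl k → Fin r → ℝ) (hB : ∀ v j, 0 ≤ B v j) (n' : Pl k → Fin r → ℕ)
    (e' : ∀ v j, Fin (n' v j) → MvPolynomial (Fin (N + 1)) k) (hh' : ∀ v j i, (e' v j i).IsHomogeneous δ)
    (he' : ∀ v ∈ P, ∀ j, LinearIndependent k fun i => aeval ξ (e' v j i)) :
    (Fintype.card G : ℝ) ^ 2 * ∑ v ∈ P, ∑ j, (∑ i, min (B v j) (omg F v (F.s (ρ j) (aeval ξ (e' v j i))) + δ * cg D x v (ρ j)) -
      (1 - 1 / (r : ℝ)) * B v j * finrank k ↥(Submodule.span k (Set.range ξ) ^ δ)) ≤
      Fintype.card G * finrank k ↥(Submodule.span k (Set.range ξ) ^ δ) * δ := by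
  classical
  rw [← hilb_eq' F x ξ hξ δ]
  refine le_of_forall_pos_le_add fun ε hε => ?_
  have h1 := ver_m hδ x hx P Hs hH (fun _ => False) (fun _ => ∅) (fun _ => ∅) (fun _ _ _ h => h.elim) ρ hρ
    (fun _ _ => 0) (fun _ _ => Fin.elim0) (fun _ _ i => i.elim0) (fun _ _ _ => linearIndependent_empty_type) B hB n' e' hh'
    (fun v hv j => li' F x ξ hξ _ (he' v hv j)) hε
  simp only [if_false] at h1
  have h2 : Tendsto (fun a => (Fintype.card G : ℝ) ^ 2 * ∑ v ∈ P, ∑ j, (∑ i, min (B v j)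
      ((δ * Real.log (mxn (D.N a v) fun l => D.s a (ρ j) (x a l)) -
        Real.log (D.N a v (D.s a (ρ j) (aeval (x a) (e' v j i))))) / D.H a) -
        (1 - 1 / (r : ℝ)) * B v j * hilb (vanI D x) δ)) (D.U : Filter ℕ)
      (nhds ((Fintype.card G : ℝ) ^ 2 * ∑ v ∈ P, ∑ j, (∑ i, min (B v j) (omg F v (F.s (ρ j) (aeval ξ (e' v j i))) +
        δ * cg D x v (ρ j)) - (1 - 1 / (r : ℝ)) * B v j * hilb (vanI D x) δ))) := by
    refine Tendsto.const_mul _ (tendsto_finsetSum P fun v hv => tendsto_finsetSum Finset.univ fun j _ => ?_)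
    refine Tendsto.sub (tendsto_finsetSum Finset.univ fun i _ => ?_) tendsto_const_nhds
    exact tendsto_const_nhds.min (loc_tendsto' F x ξ hξ hx δ _ ((he' v hv j).ne_zero i) v (ρ j))
  refine le_of_tendsto h2 ?_
  filter_upwards [h1, posH' D] with a h3 h4
  have h5 : (∑ v ∈ P, (Fintype.card G : ℝ) ^ 2 * ∑ j, (∑ i, min (B v j * D.H a)
      (δ * Real.log (mxn (D.N a v) fun l => D.s a (ρ j) (x a l)) - Real.log (D.N a v (D.s a (ρ j) (aeval (x a) (e' v j i))))) -
        (1 - 1 / (r : ℝ)) * (B v j * D.H a) * hilb (vanI D x) δ)) =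
      ((Fintype.card G : ℝ) ^ 2 * ∑ v ∈ P, ∑ j, (∑ i, min (B v j)
      ((δ * Real.log (mxn (D.N a v) fun l => D.s a (ρ j) (x a l)) -
        Real.log (D.N a v (D.s a (ρ j) (aeval (x a) (e' v j i))))) / D.H a) -
        (1 - 1 / (r : ℝ)) * B v j * hilb (vanI D x) δ)) * D.H a := by
    rw [← Finset.mul_sum, mul_assoc]
    congr 1
    rw [Finset.sum_mul]
    refine Finset.sum_congr rfl fun v _ => ?_
    rw [Finset.sum_mul]
    refine Finset.sum_congr rfl fun j _ => ?_
    have h6 : ∀ i, min (B v j * D.H a) (δ * Real.log (mxn (D.N a v) fun l => D.s a (ρ j) (x a l)) -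
        Real.log (D.N a v (D.s a (ρ j) (aeval (x a) (e' v j i))))) = min (B v j)
      ((δ * Real.log (mxn (D.N a v) fun l => D.s a (ρ j) (x a l)) -
        Real.log (D.N a v (D.s a (ρ j) (aeval (x a) (e' v j i))))) / D.H a) * D.H a := fun i => by
      rw [min_mul_of_nonneg _ _ h4.le, div_mul_cancel₀ _ h4.ne']
    rw [Finset.sum_congr rfl fun i _ => h6 i, ← Finset.sum_mul]
    ring
  rw [h5] at h3
  exact le_of_mul_le_mul_right h3 h4

end germs

end Pool.Agent.TRI
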