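import Pool.Agent.Helper67.TRI.ArithA

/-!
# TRI, block A2, part B: the data of a sequence of points
-/

set_option autoImplicit false

namespace Pool.Agent.TRI

open Module MvPolynomial Filter Pool.Agent.SQ
open Pool.Agent.Helper64.Vojta (Pl nv sn above)
open Pool.Agent.Chart (fld dg crd hgt val lam)

universe u

/-! ### representatives -/

theorem exists_rep' {G : Type} [Group G] [Fintype G] (Hs : Subgroup G) :
    ∃ ρ : Fin Hs.index → G, ∀ g, ∃! j, (ρ j)⁻¹ * g ∈ Hs := by
  classical
  have hf : Finite (G ⧸ Hs) := inferInstance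
  have e : (G ⧸ Hs) ≃ Fin Hs.index := Finite.equivFinOfCardEq (by rw [Subgroup.index_eq_card])
  refine ⟨fun j => (e.symm j).out, fun g => ⟨e (QuotientGroup.mk g), ?_, ?_⟩⟩
  · simp only [Equiv.symm_apply_apply]
    rw [← QuotientGroup.eq, QuotientGroup.out_eq']
  · intro j hj
    simp only at hj
    rw [← QuotientGroup.eq, QuotientGroup.out_eq'] at hj
    rw [← hj, Equiv.apply_symm_apply]

/-- the sum over the group -/
theorem sum_rep' {G : Type} [Group G] [Fintype G] (Hs : Subgroup G) {r : ℕ} (ρ : Fin r → G)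
    (hρ : ∀ g, ∃! j, (ρ j)⁻¹ * g ∈ Hs) (F : G → ℝ) (hF : ∀ h ∈ Hs, ∀ g, F (g * h) = F g) :
    ∑ g, F g = Nat.card Hs * ∑ j, F (ρ j) := by
  classical
  choose J hJ hJu using hρ
  rw [← Finset.sum_fiberwise (Finset.univ : Finset G) J F, Finset.mul_sum]
  refine Finset.sum_congr rfl fun j _ => ?_
  have h1 : ∀ g ∈ Finset.univ.filter (fun g => J g = j), F g = F (ρ j) := by
    intro g hg
    have h2 : J g = j := (Finset.mem_filter.1 hg).2
    have h3 := hJ g
    simp only [h2] at h3
    have h4 := hF _ h3 (ρ j)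
    rwa [mul_inv_cancel_left] at h4
  rw [Finset.sum_congr rfl h1, Finset.sum_const, nsmul_eq_mul]
  congr 1
  have h5 : (Finset.univ.filter fun g => J g = j).card = Nat.card Hs := by
    rw [Nat.card_eq_fintype_card, ← Finset.card_univ]
    refine Finset.card_bij' (fun g hg => ⟨(ρ j)⁻¹ * g, by
      have h2 : J g = j := (Finset.mem_filter.1 hg).2
      have h3 := hJ g
      simp only [h2] at h3
      exact h3⟩) (fun h _ => ρ j * h) (fun _ _ => Finset.mem_univ _) ?_ ?_ ?_
    · intro h _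
      rw [Finset.mem_filter]
      refine ⟨Finset.mem_univ _, (hJu _ j ?_).symm⟩
      simp only [inv_mul_cancel_left]
      exact h.2
    · intro g _
      exact mul_inv_cancel_left _ _
    · intro h _
      exact Subtype.ext (inv_mul_cancel_left _ _)
  exact_mod_cast h5

section

variable {k : Type u} [Field k] [NumberField k] {G : Type} [Group G] [Fintype G] {D : SqG k G} (F : GFG D) {N : ℕ}

/-- the coordinates in the field generated by them -/
noncomputable def crE {K : Type u} [Field K] [Algebra k K] (ξ : Fin (N + 1) → K) :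
    Fin (N + 1) → IntermediateField.adjoin k (Set.range ξ) :=
  fun j => ⟨ξ j, IntermediateField.subset_adjoin k _ ⟨j, rfl⟩⟩

omit [NumberField k] in
theorem crE_adjoin {K : Type u} [Field K] [Algebra k K] (ξ : Fin (N + 1) → K) :
    IntermediateField.adjoin k (Set.range (crE (k := k) ξ)) = ⊤ := by
  set E := IntermediateField.adjoin k (Set.range ξ) with hE
  have h1 : (IntermediateField.adjoin k (Set.range (crE (k := k) ξ))).map E.val = E := by
    rw [IntermediateField.adjoin_map, ← Set.range_comp]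
    rfl
  rw [eq_top_iff]
  rintro z -
  have h2 : (z : K) ∈ (IntermediateField.adjoin k (Set.range (crE (k := k) ξ))).map E.val := by
    rw [h1]
    exact z.2
  obtain ⟨w, hw, hwz⟩ := h2
  have h3 : w = z := Subtype.ext hwz
  rw [← h3]
  exact hw

omit [NumberField k] in
theorem crE_aeval {K : Type u} [Field K] [Algebra k K] (ξ : Fin (N + 1) → K) (f : MvPolynomial (Fin (N + 1)) k) :
    ((aeval (crE (k := k) ξ) f : IntermediateField.adjoin k (Set.range ξ)) : K) = aeval ξ f := by
  have h1 := MvPolynomial.comp_aeval_apply (f := crE (k := k) ξ) (IntermediateField.adjoin k (Set.range ξ)).val f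
  exact h1

omit [NumberField k] in
theorem crE_span {K : Type u} [Field K] [Algebra k K] (ξ : Fin (N + 1) → K) (m : ℕ) :
    (Submodule.span k (Set.range (crE (k := k) ξ)) ^ m).map (IntermediateField.adjoin k (Set.range ξ)).val.toLinearMap =
      Submodule.span k (Set.range ξ) ^ m := by
  rw [← map_hom' (crE (k := k) ξ) m, ← map_hom' ξ m, ← Submodule.map_comp]
  congr 1
  exact LinearMap.ext fun f => crE_aeval ξ f

omit [NumberField k] in
theorem crE_span1 {K : Type u} [Field K] [Algebra k K] (ξ : Fin (N + 1) → K) :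
    (Submodule.span k (Set.range (crE (k := k) ξ))).map (IntermediateField.adjoin k (Set.range ξ)).val.toLinearMap =
      Submodule.span k (Set.range ξ) := by
  rw [Submodule.map_span, ← Set.range_comp]
  rfl

omit [NumberField k] in
theorem crE_finrank {K : Type u} [Field K] [Algebra k K] (ξ : Fin (N + 1) → K) (m : ℕ) :
    finrank k ↥(Submodule.span k (Set.range (crE (k := k) ξ)) ^ m) = finrank k ↥(Submodule.span k (Set.range ξ) ^ m) := by
  rw [← crE_span ξ m]
  exact (Submodule.equivMapOfInjective _ (IntermediateField.adjoin k (Set.range ξ)).val.toRingHom.injective _).finrank_eq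

omit [NumberField k] in
theorem crE_mem {K : Type u} [Field K] [Algebra k K] (ξ : Fin (N + 1) → K) (m : ℕ)
    (z : IntermediateField.adjoin k (Set.range ξ)) (hz : z ∈ Submodule.span k (Set.range (crE (k := k) ξ)) ^ m) :
    ∃ f : MvPolynomial (Fin (N + 1)) k, f.IsHomogeneous m ∧ aeval ξ f = z := by
  rw [← map_hom' (crE (k := k) ξ) m] at hz
  obtain ⟨f, hf, hfz⟩ := hz
  refine ⟨f, hf, ?_⟩
  rw [← crE_aeval, ← hfz]
  rfl

variable (x : ∀ n, Fin (N + 1) → D.L n) (ξ : Fin (N + 1) → F.K)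
  (hξ : ∀ j, ∀ᶠ n in (D.U : Filter ℕ), F.rp (ξ j) n = x n j)

include hξ

theorem dat' (hx : Ptg D x) (Hs : Subgroup G) (hH : ∀ a, ∀ h ∈ Hs, ∀ j, D.s a h (x a j) = x a j) {r : ℕ} (hr : 0 < r)
    (hHr : Nat.card Hs * r = Fintype.card G) (ρ : Fin r → G) (hρ : ∀ g, ∃! j, (ρ j)⁻¹ * g ∈ Hs) (S : Finset (Pl k)) :
    Dat (Submodule.span k (Set.range (crE (k := k) ξ)))
      (fun (α : S × Fin r) (z : IntermediateField.adjoin k (Set.range ξ)) => omg F α.1 (F.s (ρ α.2) (z : F.K)))
      (fun α => cg D x α.1 (ρ α.2)) r (1 / Nat.card Hs) := by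
  classical
  have hc0 : (0 : ℝ) < Nat.card Hs := by exact_mod_cast Nat.card_pos
  have hr0 : (0 : ℝ) < r := by exact_mod_cast hr
  have hHr' : (Nat.card Hs : ℝ) * r = Fintype.card G := by exact_mod_cast hHr
  have hsp : ∀ z ∈ Submodule.span k (Set.range (crE (k := k) ξ)), (z : F.K) ∈ Submodule.span k (Set.range ξ) := by
    intro z hz
    rw [← crE_span1 (k := k) ξ]
    exact ⟨z, hz, rfl⟩
  refine ⟨hr, by positivity, ?_, ?_, ?_, ?_, ?_⟩
  · intro α
    have h1 := (omg_RV F (α.1 : Pl k)).comp (F.s (ρ α.2))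
    refine ⟨fun a b ha hb => ?_, fun a b ha hb hab => ?_, fun c hc => ?_⟩
    · exact h1.mul a b (by simpa using ha) (by simpa using hb)
    · exact h1.add a b (by simpa using ha) (by simpa using hb) (by exact_mod_cast hab)
    · exact h1.alg c hc
  · intro α z hz hz0
    exact omg_nonneg F x hx ξ hξ _ _ _ (hsp z hz) (by simpa using hz0)
  · intro α
    obtain ⟨z, hz, hz0, h⟩ := omg_attained F x hx ξ hξ (α.1 : Pl k) (ρ α.2)
    rw [← crE_span1 (k := k) ξ] at hz
    obtain ⟨w, hw, rfl⟩ := hz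
    exact ⟨w, hw, fun h0 => hz0 (by rw [h0]; exact map_zero _), h⟩
  · intro m z hz hz0
    obtain ⟨f, hf, hfz⟩ := crE_mem ξ m z hz
    have h0 : aeval ξ f ≠ 0 := by
      rw [hfz]
      simpa using hz0
    have h1 := liou' F x ξ hξ hx S f hf h0
    rw [hfz] at h1
    have h2 : ∀ v, ∑ g, (omg F v (F.s g (z : F.K)) + m * cg D x v g) =
        Nat.card Hs * ∑ j, (omg F v (F.s (ρ j) (z : F.K)) + m * cg D x v (ρ j)) := by
      intro v
      refine sum_rep' Hs ρ hρ (fun g => omg F v (F.s g (z : F.K)) + m * cg D x v g) fun h hh g => ?_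
      rw [cg_inv' x Hs hH v g h hh, map_mul, AlgEquiv.mul_apply, fix' F x ξ Hs hH hξ h hh z z.2]
    rw [Finset.sum_congr rfl fun v _ => h2 v, ← Finset.mul_sum] at h1
    rw [Fintype.sum_prod_type, Finset.sum_coe_sort S fun v => ∑ j, (omg F v (F.s (ρ j) (z : F.K)) + m * cg D x v (ρ j)),
      mul_one_div, le_div_iff₀ hc0, mul_comm]
    exact h1
  · intro m hm n z hzi hz B hB
    -- the polynomials
    have h1 : ∀ (v : Pl k) (j : Fin r), ∃ (n' : ℕ) (e' : Fin n' → MvPolynomial (Fin (N + 1)) k) (B' : ℝ),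
        (∀ i, (e' i).IsHomogeneous m) ∧ 0 ≤ B' ∧ ∀ hv : v ∈ S, LinearIndependent k (fun i => aeval ξ (e' i)) ∧
          (∑ i, min B' (omg F v (F.s (ρ j) (aeval ξ (e' i))) + m * cg D x v (ρ j)) -
            (1 - 1 / (r : ℝ)) * B' * finrank k ↥(Submodule.span k (Set.range ξ) ^ m)) =
          (∑ i, min (B (⟨v, hv⟩, j)) (omg F v (F.s (ρ j) (z (⟨v, hv⟩, j) i : F.K)) + m * cg D x v (ρ j)) -
            (1 - 1 / (r : ℝ)) * B (⟨v, hv⟩, j) * finrank k ↥(Submodule.span k (Set.range (crE (k := k) ξ)) ^ m)) := by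
      intro v j
      by_cases hv : v ∈ S
      · choose f hf hfz using fun i => crE_mem ξ m (z (⟨v, hv⟩, j) i) (hz (⟨v, hv⟩, j) i)
        refine ⟨n (⟨v, hv⟩, j), f, B (⟨v, hv⟩, j), hf, hB _, fun _ => ⟨?_, ?_⟩⟩
        · simp only [hfz]
          exact (hzi (⟨v, hv⟩, j)).map' (IntermediateField.adjoin k (Set.range ξ)).val.toLinearMap
            (LinearMap.ker_eq_bot.2 (IntermediateField.adjoin k (Set.range ξ)).val.toRingHom.injective)
        · simp only [hfz, crE_finrank]
      · exact ⟨0, Fin.elim0, 0, fun i => i.elim0, le_rfl, fun h => absurd h hv⟩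
    choose n' e' B' he' hB' hv' using h1
    have h2 := schm' F x ξ hξ hm hx S Hs hH ρ hρ B' hB' n' e' he' (fun v hv j => (hv' v j hv).1)
    have h3 : (∑ α : S × Fin r, (∑ i, min (B α) (omg F α.1 (F.s (ρ α.2) (z α i : F.K)) + m * cg D x α.1 (ρ α.2)) -
        (1 - 1 / (r : ℝ)) * B α * finrank k ↥(Submodule.span k (Set.range (crE (k := k) ξ)) ^ m))) =
        ∑ v ∈ S, ∑ j, (∑ i, min (B' v j) (omg F v (F.s (ρ j) (aeval ξ (e' v j i))) + m * cg D x v (ρ j)) -
          (1 - 1 / (r : ℝ)) * B' v j * finrank k ↥(Submodule.span k (Set.range ξ) ^ m)) := by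
      rw [Fintype.sum_prod_type, ← Finset.sum_coe_sort S fun v => ∑ j,
        (∑ i, min (B' v j) (omg F v (F.s (ρ j) (aeval ξ (e' v j i))) + m * cg D x v (ρ j)) -
          (1 - 1 / (r : ℝ)) * B' v j * finrank k ↥(Submodule.span k (Set.range ξ) ^ m))]
      refine Finset.sum_congr rfl fun v _ => Finset.sum_congr rfl fun j _ => ?_
      exact (hv' v.1 j v.2).2.symm
    rw [h3, crE_finrank]
    have hG : (0 : ℝ) < Fintype.card G := by exact_mod_cast Fintype.card_pos
    have h4 : (finrank k ↥(Submodule.span k (Set.range ξ) ^ m) : ℝ) * m * (1 / Nat.card Hs) / r =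
        (Fintype.card G * finrank k ↥(Submodule.span k (Set.range ξ) ^ m) * m) / (Fintype.card G : ℝ) ^ 2 := by
      rw [← hHr']
      field_simp
    rw [h4, le_div_iff₀ (by positivity), mul_comm]
    exact h2

end

end Pool.Agent.TRI
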