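import Pool.Agent.Helper67.TRI.ArithB
import Pool.Agent.Helper67.SQ4.SEQw

/-!
# TRI, block A2, part C: from a sequence of points to the data on the curve
-/

set_option autoImplicit false

namespace Pool.Agent.TRI

open Module MvPolynomial Filter Pool.Agent.SQ
open Pool.Agent.Helper64.Vojta (Pl nv sn above)
open Pool.Agent.Chart (fld dg crd hgt val lam)

universe u

private theorem exists_above' {k : Type u} [Field k] [NumberField k] (L : Type u) [Field L] [NumberField L] [Algebra k L]
    (v : Pl k) : ∃ w, w ∈ above L v := by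
  by_contra hcon
  push Not at hcon
  have h1 := Pool.Agent.Helper52.Vojta.sum_ldeg (L' := L) v
  rw [Finset.sum_eq_zero fun w hw => absurd hw (hcon w)] at h1
  have h2 : FiniteDimensional k L := FiniteDimensional.right ℚ k L
  have h3 : 0 < finrank k L := finrank_pos
  omega

/-- a linear form as a polynomial -/
private noncomputable def lin' {k : Type u} [Field k] {N : ℕ} (l : Fin N → k) : MvPolynomial (Fin N) k :=
  ∑ j, C (l j) * X j

private theorem lin_hom' {k : Type u} [Field k] {N : ℕ} (l : Fin N → k) : (lin' l).IsHomogeneous 1 := by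
  unfold lin'
  refine IsHomogeneous.sum _ _ _ fun j _ => ?_
  simpa using (isHomogeneous_C (Fin N) (l j)).mul (isHomogeneous_X k j)

private theorem aeval_lin' {k : Type u} [Field k] {N : ℕ} (l : Fin N → k) {L : Type*} [Field L] [Algebra k L] (x : Fin N → L) :
    aeval x (lin' l) = lv l x := by
  simp [lin', lv]

private theorem lamP_lin' {k : Type u} [Field k] [NumberField k] {N : ℕ} (l : Fin N → k) (ν : Pl k)
    (x : Fin N → AlgebraicClosure k) : lamP 1 (lin' l) ν x = lam l ν x := by
  unfold lamP lam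
  rw [aeval_lin']
  simp only [Nat.cast_one, one_mul]
  rfl

private theorem val_lin' {k : Type u} [Field k] [NumberField k] {N : ℕ} (l : Fin N → k)
    (x : Fin N → AlgebraicClosure k) : aeval (crd x) (lin' l) = val l x := by
  rw [aeval_lin']
  rfl

section

variable {k : Type u} [Field k] [NumberField k]

omit [NumberField k] in
private theorem crd_val' {N : ℕ} (x : Fin (N + 1) → AlgebraicClosure k) (f : MvPolynomial (Fin (N + 1)) k) :
    aeval (crd x) f = 0 ↔ aeval x f = 0 := by
  have h1 : ((aeval (crd x) f : fld x) : AlgebraicClosure k) = aeval x f :=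
    MvPolynomial.comp_aeval_apply (f := crd x) (fld x).val f
  rw [← h1]
  exact ZeroMemClass.coe_eq_zero.symm

omit [NumberField k] in
private theorem y_val' {N : ℕ} (x : Fin (N + 1) → AlgebraicClosure k) (y : Fin (N + 1) → gal x)
    (hy : ∀ j, (y j : AlgebraicClosure k) = x j) (f : MvPolynomial (Fin (N + 1)) k) :
    aeval y f = 0 ↔ aeval x f = 0 := by
  have h1 := MvPolynomial.comp_aeval_apply (f := y) (gal x).val f
  have h2 : (fun j => (gal x).val (y j)) = x := funext hy
  rw [h2] at h1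
  rw [← h1]
  exact ZeroMemClass.coe_eq_zero.symm

private theorem infinite_of_hyper' {T : Set ℕ} (h : ∀ᶠ n in (hyperfilter ℕ : Filter ℕ), n ∈ T) : T.Infinite := by
  intro hT
  exact notMem_hyperfilter_of_finite hT h

end

theorem arith_of {k : Type u} [Field k] [NumberField k] {N q r : ℕ}
    (NC : ∀ B : ℝ, {x : Fin (N + 1) → AlgebraicClosure k | (∃ j, x j = 1) ∧ dg x ≤ r ∧ hgt x ≤ B}.Finite)
    (l : Fin q → Fin (N + 1) → k) (S : Finset (Pl k)) (C : ℝ)
    (x : ℕ → Fin (N + 1) → AlgebraicClosure k) (hx : Function.Injective x) (h1 : ∀ a, ∃ j, x a j = 1) (hr : ∀ a, dg (x a) ≤ r)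
    (hl : ∀ a i, val (l i) (x a) ≠ 0) (hS : ∀ a, q * hgt (x a) - C ≤ ∑ ν ∈ S, ∑ i, lam (l i) ν (x a)) :
    ∃ (E : Type u) (_ : Field E) (_ : Algebra k E) (ξ : Fin (N + 1) → E) (r' : ℕ) (A : Type u) (_ : Fintype A) (ω : A → E → ℝ)
      (c : A → ℝ) (h : ℝ), r' ≤ r ∧ (∃ j, ξ j = 1) ∧ IntermediateField.adjoin k (Set.range ξ) = ⊤ ∧
      (∃ j, Transcendental k (ξ j)) ∧
      (∀ f : MvPolynomial (Fin (N + 1)) k, (aeval ξ f = 0 → {a | aeval (x a) f = 0}.Infinite) ∧
        ((∀ a, aeval (x a) f = 0) → aeval ξ f = 0)) ∧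
      Dat (Submodule.span k (Set.range ξ)) ω c r' h ∧
      (∀ i, lv (l i) ξ ≠ 0) ∧ ∀ i, h ≤ ∑ α, (ω α (lv (l i) ξ) + c α) := by
  classical
  -- the heights
  have hht : Tendsto (fun a => hgt (x a)) atTop atTop := by
    rw [tendsto_atTop]
    intro B
    rw [← Nat.cofinite_eq_atTop, eventually_cofinite]
    refine ((NC B).preimage hx.injOn).subset fun a ha => ?_
    exact ⟨h1 a, hr a, (not_le.1 ha).le⟩
  choose w hw using fun a => fun v : Pl k => exists_above' (fld (x a)) v
  obtain ⟨G, gG, fG, Hs, -, -, -, φ, hφ, -, hHd, -, y, M, s, hy, hQ, hH, hHy, -, -, hlP, -⟩ :=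
    exists_seq_w (T := Unit) x h1 hr w hw S (fun _ => ())
  set c : ℝ := (Fintype.card G : ℝ) with hc
  have hc0 : 0 < c := by
    rw [hc]
    exact_mod_cast Fintype.card_pos
  have hy1 : ∀ a, ∃ j, y a j = 1 := by
    intro a
    obtain ⟨j, hj⟩ := h1 (φ a)
    refine ⟨j, Subtype.ext ?_⟩
    rw [hy a j, hj]
    rfl
  have hyx : ∀ a (p : MvPolynomial (Fin (N + 1)) k), aeval (y a) p = 0 ↔ aeval (x (φ a)) p = 0 :=
    fun a p => y_val' _ _ (hy a) p
  -- the index
  have hHs0 : 0 < Nat.card Hs := Nat.card_pos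
  have hHi : Nat.card Hs * Hs.index = Fintype.card G := by
    rw [Subgroup.card_mul_index, Nat.card_eq_fintype_card]
  have hdg : ∀ a, dg (x (φ a)) = Hs.index := by
    intro a
    exact Nat.eq_of_mul_eq_mul_left hHs0 ((hHd a).trans hHi.symm)
  have hr'r : Hs.index ≤ r := by
    rw [← hdg 0]
    exact hr _
  have hr'0 : 0 < Hs.index := by
    rcases Nat.eq_zero_or_pos Hs.index with h | h
    · rw [h, mul_zero] at hHi
      exact absurd hHi.symm Fintype.card_ne_zero
    · exact h
  have hH1 : Tendsto (fun a => Hg (s a) (M a) (y a)) atTop atTop :=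
    ((hht.comp hφ.tendsto_atTop).const_mul_atTop hc0).congr fun a => hH a
  -- the data
  let D : SqG k G :=
    { U := hyperfilter ℕ
      L := fun a => gal (x (φ a))
      fL := fun a => inferInstance
      aL := fun a => inferInstance
      s := s
      N := M
      qs := hQ
      H := fun a => Hg (s a) (M a) (y a)
      H1 := hH1.mono_left Nat.hyperfilter_le_atTop }
  let y' : ∀ a, Fin (N + 1) → D.L a := y
  have hPt : Ptg D y' := ⟨hy1, fun a => rfl⟩
  obtain ⟨F⟩ := ger_g D
  obtain ⟨ξ, hξ⟩ := exists_xig F y' hPt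
  obtain ⟨ρ, hρ⟩ := exists_rep' Hs
  have hz : ∀ f : MvPolynomial (Fin (N + 1)) k, aeval ξ f = 0 ↔
      ∀ᶠ a in (hyperfilter ℕ : Filter ℕ), aeval (x (φ a)) f = 0 := by
    intro f
    rw [aeval_eq_zero' F y' ξ hξ f]
    exact eventually_congr (Eventually.of_forall fun a => hyx a f)
  have hzE : ∀ f : MvPolynomial (Fin (N + 1)) k, aeval (crE (k := k) ξ) f = 0 ↔ aeval ξ f = 0 := by
    intro f
    rw [← crE_aeval ξ f]
    exact ZeroMemClass.coe_eq_zero.symm
  have hlE : ∀ i, ((lv (l i) (crE (k := k) ξ) : IntermediateField.adjoin k (Set.range ξ)) : F.K) = aeval ξ (lin' (l i)) := by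
    intro i
    rw [← aeval_lin', crE_aeval]
  have hl0 : ∀ i, aeval ξ (lin' (l i)) ≠ 0 := by
    intro i h
    rw [hz] at h
    obtain ⟨a, ha⟩ := h.exists
    apply hl (φ a) i
    rw [← val_lin', crd_val']
    exact ha
  refine ⟨IntermediateField.adjoin k (Set.range ξ), inferInstance, inferInstance, crE ξ, Hs.index, S × Fin Hs.index,
    inferInstance, fun α z => omg F α.1 (F.s (ρ α.2) z), fun α => cg D y' α.1 (ρ α.2), 1 / Nat.card Hs, hr'r, ?_,
    crE_adjoin ξ, ?_, ?_, dat' F y' ξ hξ hPt Hs hHy hr'0 hHi ρ hρ S, ?_, ?_⟩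
  · -- one coordinate is one
    obtain ⟨j, hj⟩ := Ultrafilter.eventually_exists_iff.1 (Eventually.of_forall hy1 : ∀ᶠ a in (D.U : Filter ℕ), ∃ j, y a j = 1)
    refine ⟨j, Subtype.ext ?_⟩
    have h2 := (aeval_eq_zero' F y' ξ hξ (X j - 1)).2 (by
      filter_upwards [hj] with a ha
      rw [map_sub, aeval_X, map_one]
      show y a j - 1 = 0
      rw [ha, sub_self])
    rw [map_sub, aeval_X, map_one, sub_eq_zero] at h2
    exact h2
  · -- one coordinate is transcendental
    by_contra hcon
    push Not at hcon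
    have h2 : ∀ j, ∃ p : Polynomial k, p ≠ 0 ∧ Polynomial.aeval (ξ j) p = 0 := by
      intro j
      have h3 := hcon j
      rw [Transcendental, not_not] at h3
      obtain ⟨p, hp, hp0⟩ := h3
      refine ⟨p, hp, ?_⟩
      have h4 := Polynomial.aeval_algHom_apply (IntermediateField.adjoin k (Set.range ξ)).val (crE (k := k) ξ j) p
      rw [hp0, map_zero] at h4
      exact h4
    choose p hp hp0 using h2
    have h3 : ∀ j, ∀ᶠ a in (hyperfilter ℕ : Filter ℕ), Polynomial.aeval (x (φ a) j) (p j) = 0 := by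
      intro j
      have h4 := (hz (Polynomial.aeval (X j) (p j))).1 (by
        rw [← Polynomial.aeval_algHom_apply, aeval_X, hp0])
      filter_upwards [h4] with a ha
      rw [← Polynomial.aeval_algHom_apply, aeval_X] at ha
      exact ha
    have h4 : ∀ᶠ a in (hyperfilter ℕ : Filter ℕ), a ∈ {a | ∀ j, Polynomial.aeval (x (φ a) j) (p j) = 0} := by
      show ∀ᶠ a in (hyperfilter ℕ : Filter ℕ), ∀ j, Polynomial.aeval (x (φ a) j) (p j) = 0
      rw [eventually_all]
      exact h3
    have h5 := infinite_of_hyper' h4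
    apply h5
    have h6 : (Set.pi Set.univ fun j => (p j).rootSet (AlgebraicClosure k)).Finite :=
      Set.Finite.pi fun _ => Polynomial.rootSet_finite _ _
    refine (h6.preimage (hx.comp hφ.injective).injOn).subset fun a ha j _ => ?_
    rw [Polynomial.mem_rootSet]
    exact ⟨hp j, ha j⟩
  · -- the equations
    intro f
    refine ⟨fun h => ?_, fun h => ?_⟩
    · rw [hzE, hz] at h
      have h2 := infinite_of_hyper' (T := {a | aeval (x (φ a)) f = 0}) h
      refine (h2.image hφ.injective.injOn).mono ?_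
      rintro _ ⟨a, ha, rfl⟩
      exact ha
    · rw [hzE, hz]
      exact Eventually.of_forall fun a => h _
  · intro i h
    apply hl0 i
    rw [← hlE i, h]
    rfl
  · -- the forms
    have hcs : (0 : ℝ) < Nat.card Hs := by exact_mod_cast hHs0
    set T : Fin q → ℝ := fun i => ∑ v ∈ S, ∑ g, (omg F v (F.s g (aeval ξ (lin' (l i)))) + ((1 : ℕ) : ℝ) * cg D y' v g) with hT
    have hT1 : ∀ i, T i ≤ 1 := by
      intro i
      exact (liou' F y' ξ hξ hPt S (lin' (l i)) (lin_hom' _) (hl0 i)).trans (le_of_eq Nat.cast_one)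
    have hTs : (q : ℝ) ≤ ∑ i, T i := by
      have h2 := tendsto_finsetSum Finset.univ fun (i : Fin q) _ => tendsto_finsetSum S fun v _ =>
        tendsto_finsetSum Finset.univ fun g _ => loc_tendsto' F y' ξ hξ hPt 1 (lin' (l i)) (hl0 i) v g
      have h3 := (const_H' D (-(c * C))).const_add (q : ℝ)
      rw [add_zero] at h3
      refine le_of_tendsto_of_tendsto h3 h2 ?_
      filter_upwards [posH' D] with a ha
      simp only [← Finset.sum_div]
      rw [le_div_iff₀ ha, add_mul, div_mul_cancel₀ _ ha.ne']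
      have h4 : ∑ i, ∑ v ∈ S, ∑ g, (((1 : ℕ) : ℝ) * Real.log (mxn (D.N a v) fun j => D.s a g (y' a j)) -
          Real.log (D.N a v (D.s a g (aeval (y' a) (lin' (l i)))))) = c * ∑ v ∈ S, ∑ i, lam (l i) v (x (φ a)) := by
        rw [Finset.sum_comm, Finset.mul_sum]
        refine Finset.sum_congr rfl fun v _ => ?_
        rw [Finset.mul_sum]
        refine Finset.sum_congr rfl fun i _ => ?_
        rw [← lamP_lin']
        refine (hlP a v 1 (lin' (l i)) ?_).symm
        rw [val_lin']
        exact hl _ i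
      rw [h4]
      have h5 := mul_le_mul_of_nonneg_left (hS (φ a)) hc0.le
      have h6 : D.H a = c * hgt (x (φ a)) := (hH a).symm
      rw [h6]
      linarith
    intro i
    have h2 : 1 ≤ T i := by
      have h3 := Finset.add_sum_erase Finset.univ T (Finset.mem_univ i)
      have h4 : ∑ j ∈ Finset.univ.erase i, T j ≤ ∑ j ∈ Finset.univ.erase i, 1 := Finset.sum_le_sum fun j _ => hT1 j
      rw [Finset.sum_const, Finset.card_erase_of_mem (Finset.mem_univ i), Finset.card_univ, Fintype.card_fin, nsmul_eq_mul,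
        mul_one] at h4
      have h5 : 0 < q := i.pos
      have h6 : ((q - 1 : ℕ) : ℝ) = q - 1 := by
        rw [Nat.cast_sub h5, Nat.cast_one]
      rw [h6] at h4
      linarith
    have h3 : T i = Nat.card Hs * ∑ α : S × Fin Hs.index, (omg F α.1 (F.s (ρ α.2) (aeval ξ (lin' (l i)))) + cg D y' α.1 (ρ α.2)) := by
      rw [Fintype.sum_prod_type, Finset.sum_coe_sort S fun v => ∑ j, (omg F v (F.s (ρ j) (aeval ξ (lin' (l i)))) + cg D y' v (ρ j)),
        Finset.mul_sum, hT]
      refine Finset.sum_congr rfl fun v _ => ?_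
      simp only [Nat.cast_one, one_mul]
      refine sum_rep' Hs ρ hρ (fun g => omg F v (F.s g (aeval ξ (lin' (l i)))) + cg D y' v g) fun h hh g => ?_
      have h4 : aeval ξ (lin' (l i)) ∈ IntermediateField.adjoin k (Set.range ξ) := by
        rw [← hlE i]
        exact Subtype.coe_prop _
      rw [cg_inv' y' Hs hHy v g h hh, map_mul, AlgEquiv.mul_apply, fix' F y' ξ Hs hHy hξ h hh _ h4]
    simp only [hlE]
    rw [div_le_iff₀ hcs, mul_comm]
    rw [h3] at h2
    exact h2

end Pool.Agent.TRI
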