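import Pool.Agent.Helper67.TRI.ArithS3
import Pool.Agent.Helper6.TRI.SDefs

/-!
# TRI, block S2: as `arith`, with moving forms, over the field of the slow germs
-/

set_option autoImplicit false

namespace Pool.Agent.TRI

open NumberField Filter Module MvPolynomial Pool.Agent.SQ
open Pool.Agent.Helper64.Vojta (Pl nv sn above)
open Pool.Agent.V2
open Pool.Agent.Chart (fld dg crd hgt val lam)

universe u

private theorem exists_above_t {k : Type u} [Field k] [NumberField k] (L : Type u) [Field L] [NumberField L] [Algebra k L]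
    (v : Pl k) : ∃ w, w ∈ above L v := by
  by_contra hcon
  push Not at hcon
  have h1 := Pool.Agent.Helper52.Vojta.sum_ldeg (L' := L) v
  rw [Finset.sum_eq_zero fun w hw => absurd hw (hcon w)] at h1
  have h2 : FiniteDimensional k L := FiniteDimensional.right ℚ k L
  have h3 : 0 < finrank k L := finrank_pos
  omega

/-- a linear form as a polynomial -/
private noncomputable def lin_t {k : Type u} [Field k] {N : ℕ} (l : Fin N → k) : MvPolynomial (Fin N) k :=
  ∑ j, C (l j) * X j

private theorem aeval_lin_t {k : Type u} [Field k] {N : ℕ} (l : Fin N → k) {L : Type*} [Field L] [Algebra k L] (x : Fin N → L) :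
    aeval x (lin_t l) = lvg l x := by
  simp [lin_t, lvg]

private theorem lamP_lin_t {k : Type u} [Field k] [NumberField k] {N : ℕ} (l : Fin N → k) (ν : Pl k)
    (x : Fin N → AlgebraicClosure k) : lamP 1 (lin_t l) ν x = lam l ν x := by
  unfold lamP lam
  rw [aeval_lin_t]
  simp only [Nat.cast_one, one_mul]
  rfl

private theorem hgt_nonneg_t {k : Type u} [Field k] [NumberField k] {N : ℕ} (x : Fin N → AlgebraicClosure k) : 0 ≤ hgt x := by
  unfold hgt
  exact div_nonneg (Height.logHeight_nonneg _) (Nat.cast_nonneg _)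

/-- the value of a polynomial at the point with coordinates in the Galois closure -/
private theorem coe_aeval_t {k : Type u} [Field k] [NumberField k] {N s : ℕ} (x : Fin (N + 1) → AlgebraicClosure k)
    (y : Fin (N + 1) → gal x) (hy : ∀ j, (y j : AlgebraicClosure k) = x j) (b : Fin s → k)
    (P : MvPolynomial (Fin s ⊕ Fin (N + 1)) k) :
    aeval (Sum.elim (fun i => algebraMap k (gal x) (b i)) y) P = 0 ↔
      aeval (Sum.elim (fun i => algebraMap k (AlgebraicClosure k) (b i)) x) P = 0 := by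
  have h1 := MvPolynomial.comp_aeval_apply (f := Sum.elim (fun i => algebraMap k (gal x) (b i)) y) (gal x).val P
  have h2 : (fun p => (gal x).val (Sum.elim (fun i => algebraMap k (gal x) (b i)) y p)) =
      Sum.elim (fun i => algebraMap k (AlgebraicClosure k) (b i)) x := by
    funext p
    rcases p with i | j
    · rfl
    · exact hy j
  rw [h2] at h1
  rw [← h1]
  exact ZeroMemClass.coe_eq_zero.symm

theorem arith_s {k : Type u} [Field k] [NumberField k] {N q r : ℕ} (hq : 0 < q) (S : Finset (Pl k))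
    (l : ℕ → Fin q → Fin (N + 1) → k) (x : ℕ → Fin (N + 1) → AlgebraicClosure k) (hb : BadS r S l x) :
    ∃ (φ : ℕ → ℕ) (k' E : Type u) (_ : Field k') (_ : Field E) (_ : Algebra k k') (_ : Algebra k' E) (_ : Algebra k E)
      (_ : IsScalarTower k k' E) (γ : (ℕ → k) → k') (ξ : Fin (N + 1) → E) (r' : ℕ) (A : Type u) (_ : Fintype A) (ω : A → E → ℝ)
      (c : A → ℝ) (h : ℝ), StrictMono φ ∧ r' ≤ r ∧ (∃ j, ξ j = 1) ∧ IntermediateField.adjoin k' (Set.range ξ) = ⊤ ∧
      (∃ j, Transcendental k' (ξ j)) ∧ (∀ i j, SlowS (x ∘ φ) fun a => l (φ a) i j) ∧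
      (∀ z : k', ∃ b, SlowS (x ∘ φ) b ∧ γ b = z) ∧
      (∀ (s : ℕ) (b : Fin s → ℕ → k), (∀ i, SlowS (x ∘ φ) (b i)) → ∀ F : MvPolynomial (Fin s ⊕ Fin (N + 1)) k,
        aeval (Sum.elim (fun i => algebraMap k' E (γ (b i))) ξ) F = 0 ↔
          ∀ᶠ a in (hyperfilter ℕ : Filter ℕ), aeval (Sum.elim (fun i => algebraMap k (AlgebraicClosure k) (b i a)) (x (φ a))) F = 0) ∧
      Dat (Submodule.span k' (Set.range ξ)) ω c r' h ∧
      (∀ i, lv (fun j => γ fun a => l (φ a) i j) ξ ≠ 0) ∧
      ∀ i, h ≤ ∑ α, (ω α (lv (fun j => γ fun a => l (φ a) i j) ξ) + c α) := by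
  classical
  obtain ⟨h1, ⟨t, ht0, ht⟩, hr, hout, hbig⟩ := hb
  choose w hw using fun a => fun v : Pl k => exists_above_t (fld (x a)) v
  obtain ⟨G, gG, fG, Hs, -, -, -, φ, hφ, -, hHd, -, y, M, s, hy, hQ, hH, hHy, -, -, hlP, -⟩ :=
    exists_seq_w (T := Unit) x h1 hr w hw S (fun _ => ())
  set c : ℝ := (Fintype.card G : ℝ) with hc
  have hc0 : 0 < c := by
    rw [hc]
    exact_mod_cast Fintype.card_pos
  have hφa : ∀ a, a ≤ φ a := fun a => hφ.le_apply
  have hy1 : ∀ a, ∃ j, y a j = 1 := by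
    intro a
    obtain ⟨j, hj⟩ := h1 (φ a)
    refine ⟨j, Subtype.ext ?_⟩
    rw [hy a j, hj]
    rfl
  -- the index
  have hHs0 : 0 < Nat.card Hs := Nat.card_pos
  have hHi : Nat.card Hs * Hs.index = Fintype.card G := by
    rw [Subgroup.card_mul_index, Nat.card_eq_fintype_card]
  have hr'r : Hs.index ≤ r := by
    have h2 : dg (x (φ 0)) = Hs.index := Nat.eq_of_mul_eq_mul_left hHs0 ((hHd 0).trans hHi.symm)
    rw [← h2]
    exact hr _
  have hr'0 : 0 < Hs.index := by
    rcases Nat.eq_zero_or_pos Hs.index with h | h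
    · rw [h, mul_zero] at hHi
      exact absurd hHi.symm Fintype.card_ne_zero
    · exact h
  -- the forms
  set lr : ℕ → Fin q → Fin (N + 1) → k := fun a i j => (t i)⁻¹ * l (φ a) i j with hlr
  have hlr1 : ∀ a i, ∃ j, lr a i j = 1 := by
    intro a i
    obtain ⟨j, hj⟩ := ht (φ a) i
    exact ⟨j, by rw [hlr]; simp only; rw [hj, inv_mul_cancel₀ (ht0 i)]⟩
  have hhr : ∀ a i, Height.logHeight (lr a i) = Height.logHeight (l (φ a) i) := by
    intro a i
    exact Height.logHeight_smul_eq_logHeight (l (φ a) i) (inv_ne_zero (ht0 i))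
  have hlvr : ∀ a i, lvg (lr a i) (y a) = algebraMap k _ (t i)⁻¹ * lvg (l (φ a) i) (y a) := by
    intro a i
    simp only [lvg, hlr, Finset.mul_sum, map_mul, mul_assoc]
  have hlv0 : ∀ a i, lvg (l (φ a) i) (y a) ≠ 0 := by
    intro a i h
    apply hout (φ a) i
    have h2 := (coe_aeval_t (s := 0) (x (φ a)) (y a) (hy a) Fin.elim0 (MvPolynomial.rename Sum.inr (lin_t (l (φ a) i)))).1 (by
      rw [aeval_rename]
      show aeval (y a) _ = 0
      rw [aeval_lin_t]
      exact h)
    rw [aeval_rename] at h2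
    have h3 : aeval (x (φ a)) (lin_t (l (φ a) i)) = 0 := h2
    apply Subtype.ext
    show ((val (l (φ a) i) (x (φ a)) : fld (x (φ a))) : AlgebraicClosure k) = 0
    have h4 : ((aeval (crd (x (φ a))) (lin_t (l (φ a) i)) : fld (x (φ a))) : AlgebraicClosure k) =
        aeval (x (φ a)) (lin_t (l (φ a) i)) :=
      MvPolynomial.comp_aeval_apply (f := crd (x (φ a))) (fld (x (φ a))).val (lin_t (l (φ a) i))
    rw [h3, aeval_lin_t] at h4
    exact h4
  have hlvr0 : ∀ a i, lvg (lr a i) (y a) ≠ 0 := by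
    intro a i
    rw [hlvr a i]
    exact mul_ne_zero ((map_ne_zero _).2 (inv_ne_zero (ht0 i))) (hlv0 a i)
  -- the local contributions
  set Z : ℕ → ℝ := fun a => ∑ ν ∈ S, ∑ i, ∑ g, (Real.log (mxn (M a ν) fun j => s a g (y a j)) -
    Real.log (M a ν (s a g (lvg (l (φ a) i) (y a))))) with hZ
  have hW : ∀ a, c * ∑ ν ∈ S, ∑ i, lam (l (φ a) i) ν (x (φ a)) = Z a := by
    intro a
    rw [hZ, Finset.mul_sum]
    refine Finset.sum_congr rfl fun ν _ => ?_
    rw [Finset.mul_sum]
    refine Finset.sum_congr rfl fun i _ => ?_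
    have h2 := hlP a ν 1 (lin_t (l (φ a) i)) (by
      rw [aeval_lin_t]
      exact hout (φ a) i)
    rw [lamP_lin_t, aeval_lin_t] at h2
    rw [hc, h2]
    refine Finset.sum_congr rfl fun g _ => ?_
    rw [Nat.cast_one, one_mul]
  -- Liouville
  obtain ⟨C0, hC0, hLi⟩ := liou67.{u} G k N
  set T : ℕ → ℝ := fun a => ∑ i, Height.logHeight (lr a i) with hT
  have hT0 : ∀ a, 0 ≤ T a := fun a => Finset.sum_nonneg fun i _ => Height.logHeight_nonneg _
  have hTi : ∀ a i, Height.logHeight (lr a i) ≤ T a := fun a i =>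
    Finset.single_le_sum (f := fun i => Height.logHeight (lr a i)) (fun i _ => Height.logHeight_nonneg _) (Finset.mem_univ i)
  set Ha : ℕ → ℝ := fun a => Hg (s a) (M a) (y a) with hHa
  have hHc : ∀ a, Ha a = c * hgt (x (φ a)) := fun a => (hH a).symm
  have hH0 : ∀ a, 0 ≤ Ha a := by
    intro a
    rw [hHc]
    exact mul_nonneg hc0.le (hgt_nonneg_t _)
  set K1 : ℝ := ∑ i, (C0 + c * ∑ ν ∈ S, |Real.log (nv ν (t i)⁻¹)|) with hK1
  have hK10 : 0 ≤ K1 := Finset.sum_nonneg fun i _ =>
    add_nonneg hC0 (mul_nonneg hc0.le (Finset.sum_nonneg fun ν _ => abs_nonneg _))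
  have hup : ∀ a, Z a ≤ q * Ha a + c * T a + K1 := by
    intro a
    have h2 : ∀ i, ∑ ν ∈ S, ∑ g, (Real.log (mxn (M a ν) fun j => s a g (y a j)) -
        Real.log (M a ν (s a g (lvg (l (φ a) i) (y a))))) ≤
        Ha a + c * Height.logHeight (lr a i) + (C0 + c * ∑ ν ∈ S, |Real.log (nv ν (t i)⁻¹)|) := by
      intro i
      have h3 := hLi _ (s a) (M a) (hQ a) (lr a i) (hlr1 a i) (y a) (hy1 a) (hlvr0 a i) S
      have h4 : ∀ ν ∈ S, ∑ g, (Real.log (mxn (M a ν) fun j => s a g (y a j)) -
          Real.log (M a ν (s a g (lvg (l (φ a) i) (y a))))) ≤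
          (∑ g, (Real.log (sn ν (lr a i)) + Real.log (mxn (M a ν) fun j => s a g (y a j)) -
            Real.log (M a ν (s a g (lvg (lr a i) (y a)))))) + c * |Real.log (nv ν (t i)⁻¹)| := by
        intro ν _
        have h5 : c * |Real.log (nv ν (t i)⁻¹)| = ∑ g : G, |Real.log (nv ν (t i)⁻¹)| := by
          rw [Finset.sum_const, Finset.card_univ, nsmul_eq_mul]
        rw [h5, ← Finset.sum_add_distrib]
        refine Finset.sum_le_sum fun g _ => ?_
        have h6 : Real.log (M a ν (s a g (lvg (lr a i) (y a)))) =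
            Real.log (nv ν (t i)⁻¹) + Real.log (M a ν (s a g (lvg (l (φ a) i) (y a)))) := by
          rw [hlvr a i, map_mul, AlgEquiv.commutes, (hQ a).mul, (hQ a).ext,
            Real.log_mul (Pool.Agent.Helper64.Vojta.nv_pos ν (inv_ne_zero (ht0 i))).ne'
              ((hQ a).pos ν _ (by simpa using hlv0 a i)).ne']
        have h7 : 0 ≤ Real.log (sn ν (lr a i)) := Real.log_nonneg (sn_one67 (hlr1 a i) ν)
        have h8 := le_abs_self (Real.log (nv ν (t i)⁻¹))
        rw [h6]
        linarith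
      have h5 := Finset.sum_le_sum h4
      rw [Finset.sum_add_distrib, ← Finset.mul_sum] at h5
      have h6 : (Fintype.card G : ℝ) * Height.logHeight (lr a i) = c * Height.logHeight (lr a i) := rfl
      linarith
    rw [hZ]
    simp only
    rw [Finset.sum_comm]
    refine (Finset.sum_le_sum fun i _ => h2 i).trans (le_of_eq ?_)
    rw [Finset.sum_add_distrib, Finset.sum_add_distrib, Finset.sum_const, Finset.card_univ, Fintype.card_fin, nsmul_eq_mul,
      ← Finset.mul_sum]
  have hlow : ∀ a, (q - 1 / ((φ a : ℝ) + 1)) * Ha a + c * (φ a * (1 + T a)) < Z a := by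
    intro a
    rw [← hW a]
    have h2 := mul_lt_mul_of_pos_left (hbig (φ a)) hc0
    have h3 : ∑ i, Height.logHeight (l (φ a) i) = T a := Finset.sum_congr rfl fun i _ => (hhr a i).symm
    rw [h3] at h2
    refine lt_of_eq_of_lt ?_ h2
    rw [hHc]
    ring
  have hkey : ∀ a : ℕ, c * (((a : ℝ) - 1) * (1 + T a)) ≤ Ha a + K1 := by
    intro a
    have h2 := (hlow a).le.trans (hup a)
    have h3 : 1 / ((φ a : ℝ) + 1) * Ha a ≤ Ha a := by
      have h4 : 1 / ((φ a : ℝ) + 1) ≤ 1 := by
        rw [div_le_one (by positivity)]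
        have : (0 : ℝ) ≤ φ a := Nat.cast_nonneg _
        linarith
      have := mul_le_mul_of_nonneg_right h4 (hH0 a)
      linarith
    have h4 : (a : ℝ) ≤ φ a := by exact_mod_cast hφa a
    have h5 : c * ((a : ℝ) * (1 + T a)) ≤ c * (φ a * (1 + T a)) :=
      mul_le_mul_of_nonneg_left (mul_le_mul_of_nonneg_right h4 (by linarith [hT0 a])) hc0.le
    have h6 : c * (((a : ℝ) - 1) * (1 + T a)) = c * ((a : ℝ) * (1 + T a)) - c - c * T a := by ring
    have h7 : (q - 1 / ((φ a : ℝ) + 1)) * Ha a = q * Ha a - 1 / ((φ a : ℝ) + 1) * Ha a := by ring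
    rw [h7] at h2
    linarith
  have hH1 : Tendsto Ha atTop atTop := by
    have h2 : ∀ᶠ a : ℕ in atTop, c * a - (c + K1) ≤ Ha a := by
      filter_upwards [eventually_ge_atTop 1] with a h9
      have h3 := hkey a
      have h10 : (0 : ℝ) ≤ (a : ℝ) - 1 := by
        have : (1 : ℝ) ≤ a := by exact_mod_cast h9
        linarith
      have h11 : 0 ≤ c * (((a : ℝ) - 1) * T a) := mul_nonneg hc0.le (mul_nonneg h10 (hT0 a))
      have h12 : c * (((a : ℝ) - 1) * (1 + T a)) = c * a - c + c * (((a : ℝ) - 1) * T a) := by ring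
      linarith
    refine tendsto_atTop_mono' _ h2 ?_
    exact tendsto_atTop_add_const_right _ _ (tendsto_natCast_atTop_atTop.const_mul_atTop hc0)
  have hTslow : ∀ η : ℝ, 0 < η → ∀ᶠ a in atTop, T a ≤ η * Ha a := by
    intro η hη
    have h2 : Tendsto (fun a : ℕ => c * η * ((a : ℝ) - 1)) atTop atTop :=
      (tendsto_atTop_add_const_right _ _ tendsto_natCast_atTop_atTop).const_mul_atTop (mul_pos hc0 hη)
    filter_upwards [h2.eventually_ge_atTop 2, hH1.eventually_ge_atTop K1, eventually_gt_atTop 1] with a h3 h4 h5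
    have h6 : (0 : ℝ) < (a : ℝ) - 1 := by
      have : (1 : ℝ) < a := by exact_mod_cast h5
      linarith
    have h7 := hkey a
    have h8 : c * (((a : ℝ) - 1) * (1 + T a)) = c * ((a : ℝ) - 1) + c * ((a : ℝ) - 1) * T a := by ring
    have h9 : 0 < c * ((a : ℝ) - 1) := mul_pos hc0 h6
    have h11 : 2 * Ha a ≤ c * η * ((a : ℝ) - 1) * Ha a := mul_le_mul_of_nonneg_right h3 (hH0 a)
    have h12 : c * ((a : ℝ) - 1) * T a ≤ c * ((a : ℝ) - 1) * (η * Ha a) := by
      have h13 : c * η * ((a : ℝ) - 1) * Ha a = c * ((a : ℝ) - 1) * (η * Ha a) := by ring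
      linarith
    exact le_of_mul_le_mul_left h12 h9
  -- the data
  let D : SqG k G :=
    { U := hyperfilter ℕ
      L := fun a => gal (x (φ a))
      fL := fun a => inferInstance
      aL := fun a => inferInstance
      s := s
      N := M
      qs := hQ
      H := Ha
      H1 := hH1.mono_left Nat.hyperfilter_le_atTop }
  let y' : ∀ a, Fin (N + 1) → D.L a := y
  have hPt : Ptg D y' := ⟨hy1, fun a => rfl⟩
  have hltop : (D.U : Filter ℕ) ≤ atTop := Nat.hyperfilter_le_atTop
  obtain ⟨F⟩ := ger_g D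
  obtain ⟨ξ, hξ⟩ := exists_xig F y' hPt
  obtain ⟨ρ, hρ⟩ := exists_rep' Hs
  -- slow sequences
  have hslow : ∀ b : ℕ → k, SlowS (x ∘ φ) b ↔ SlD D b := by
    intro b
    unfold SlowS SlD SlowG
    refine forall_congr' fun η => forall_congr' fun hη => eventually_congr (Eventually.of_forall fun a => ?_)
    rw [htg_const67 (D.qs a)]
    show _ ↔ c * _ ≤ η * Ha a
    rw [hHc a, show η * (c * hgt (x (φ a))) = c * (η * hgt (x (φ a))) by ring, mul_le_mul_iff_right₀ hc0]
    rfl
  have hls : ∀ i j, SlowS (x ∘ φ) fun a => l (φ a) i j := by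
    intro i j η hη
    have h2 : Tendsto (fun a => hgt (x (φ a))) atTop atTop := by
      have h3 := hH1.const_mul_atTop (inv_pos.2 hc0)
      refine h3.congr fun a => ?_
      rw [hHc, ← mul_assoc, inv_mul_cancel₀ hc0.ne', one_mul]
    filter_upwards [hltop (hTslow (η / (2 * c)) (by positivity)),
      hltop (h2.eventually_ge_atTop (Height.logHeight₁ (t i) / (η / 2)))] with a h3 h4
    rw [div_le_iff₀ (by positivity)] at h4
    have h5 : l (φ a) i j = t i * lr a i j := by
      rw [hlr]
      simp only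
      rw [← mul_assoc, mul_inv_cancel₀ (ht0 i), one_mul]
    have h6 := Height.logHeight₁_mul_le (t i) (lr a i j)
    rw [← h5] at h6
    have h7 := (lh1_le67 (hlr1 a i) j).trans ((hTi a i).trans h3)
    rw [hHc a] at h7
    have h8 : η / (2 * c) * (c * hgt (x (φ a))) = η / 2 * hgt (x (φ a)) := by field_simp
    rw [h8] at h7
    show _ ≤ η * hgt (x (φ a))
    linarith
  -- the field
  have hzE : ∀ z : IntermediateField.adjoin (slk F) (Set.range ξ), z = 0 ↔ (z : F.K) = 0 := fun z =>
    ZeroMemClass.coe_eq_zero.symm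
  let γ : (ℕ → k) → slk F := gm F
  have hγ : ∀ b, SlowS (x ∘ φ) b → ∀ᶠ a in (D.U : Filter ℕ), F.rp (γ b : F.K) a = algebraMap k (D.L a) (b a) :=
    fun b hb => gm_rp F b ((hslow b).1 hb)
  have hlE : ∀ i, ((lv (fun j => γ fun a => l (φ a) i j) (crE (k := slk F) ξ) :
      IntermediateField.adjoin (slk F) (Set.range ξ)) : F.K) = ∑ j, (γ fun a => l (φ a) i j : F.K) * ξ j := by
    intro i
    unfold lv
    rw [AddSubmonoidClass.coe_finsetSum]
    rfl
  have hlrp : ∀ i, ∀ᶠ a in (D.U : Filter ℕ), F.rp (∑ j, (γ fun a => l (φ a) i j : F.K) * ξ j) a = lvg (l (φ a) i) (y' a) := by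
    intro i
    have h3 := rp_aeval_s F (Sum.elim (fun j => (γ fun a => l (φ a) i j : F.K)) ξ)
      (fun a => Sum.elim (fun j => algebraMap k (D.L a) (l (φ a) i j)) (y' a))
      (by rintro (j | j); exacts [hγ _ (hls i j), hξ j]) (∑ j, X (Sum.inl j) * X (Sum.inr j))
    filter_upwards [h3] with a h5
    simp only [map_sum, map_mul, aeval_X, Sum.elim_inl, Sum.elim_inr] at h5
    exact h5
  have hl0 : ∀ i, (∑ j, (γ fun a => l (φ a) i j : F.K) * ξ j) ≠ 0 := by
    intro i h
    obtain ⟨a, h2, h3⟩ := ((hlrp i).and (rp_zero' F)).exists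
    rw [h] at h2
    exact hlv0 a i (h2.symm.trans h3)
  have hDat := dat_s F y' ξ hξ hPt Hs hHy hr'0 hHi ρ hρ S
  have hcs : (0 : ℝ) < Nat.card Hs := by exact_mod_cast hHs0
  -- the forms are in the span
  have hlV : ∀ i, lv (fun j => γ fun a => l (φ a) i j) (crE (k := slk F) ξ) ∈
      Submodule.span (slk F) (Set.range (crE (k := slk F) ξ)) := by
    intro i
    unfold lv
    refine Submodule.sum_mem _ fun j _ => ?_
    rw [← Algebra.smul_def]
    exact Submodule.smul_mem _ _ (Submodule.subset_span ⟨j, rfl⟩)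
  have hlE0 : ∀ i, lv (fun j => γ fun a => l (φ a) i j) (crE (k := slk F) ξ) ≠ 0 := by
    intro i h
    apply hl0 i
    rw [← hlE i, h]
    rfl
  -- the second inequality
  have hI2 : ∀ i, (1 / Nat.card Hs : ℝ) ≤ ∑ α : S × Fin Hs.index, (omg F α.1 (F.s (ρ α.2)
      ((lv (fun j => γ fun a => l (φ a) i j) (crE (k := slk F) ξ) : IntermediateField.adjoin (slk F) (Set.range ξ)) : F.K)) +
        cg D y' α.1 (ρ α.2)) := by
    set Q : Fin q → ℝ := fun i => ∑ α : S × Fin Hs.index, (omg F α.1 (F.s (ρ α.2)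
      ((lv (fun j => γ fun a => l (φ a) i j) (crE (k := slk F) ξ) : IntermediateField.adjoin (slk F) (Set.range ξ)) : F.K)) +
        cg D y' α.1 (ρ α.2)) with hQd
    have hQ1 : ∀ i, Q i ≤ 1 / Nat.card Hs := by
      intro i
      have h2 := hDat.I1 1 _ (by rw [pow_one]; exact hlV i) (hlE0 i)
      simpa only [Nat.cast_one, one_mul] using h2
    have hQs : (q : ℝ) ≤ ∑ i, Nat.card Hs * Q i := by
      have h2 := tendsto_finsetSum Finset.univ fun (i : Fin q) _ => tendsto_finsetSum S fun v _ =>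
        tendsto_finsetSum Finset.univ fun g _ =>
          (cg_tendsto y' hPt v g).add (omg_tendsto F v (F.s g (∑ j, (γ fun a => l (φ a) i j : F.K) * ξ j))
            ((map_ne_zero (F.s g)).2 (hl0 i)))
      have h3 : ∀ i, ∑ v ∈ S, ∑ g, (cg D y' v g + omg F v (F.s g (∑ j, (γ fun a => l (φ a) i j : F.K) * ξ j))) =
          Nat.card Hs * Q i := by
        intro i
        rw [hQd]
        simp only
        rw [Fintype.sum_prod_type, Finset.sum_coe_sort S fun v => ∑ j, (omg F v (F.s (ρ j)
          ((lv (fun j => γ fun a => l (φ a) i j) (crE (k := slk F) ξ) : IntermediateField.adjoin (slk F) (Set.range ξ)) : F.K)) +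
            cg D y' v (ρ j)), Finset.mul_sum]
        refine Finset.sum_congr rfl fun v _ => ?_
        rw [hlE i]
        rw [← sum_rep' Hs ρ hρ (fun g => omg F v (F.s g (∑ j, (γ fun a => l (φ a) i j : F.K) * ξ j)) + cg D y' v g) ?_]
        · exact Finset.sum_congr rfl fun g _ => add_comm _ _
        · intro h hh g
          have h4 : F.s h (∑ j, (γ fun a => l (φ a) i j : F.K) * ξ j) = ∑ j, (γ fun a => l (φ a) i j : F.K) * ξ j := by
            rw [map_sum]
            refine Finset.sum_congr rfl fun j _ => ?_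
            rw [map_mul, (γ fun a => l (φ a) i j).2.1 h]
            congr 1
            exact fix' F y' ξ Hs hHy hξ h hh _ (IntermediateField.subset_adjoin k _ ⟨j, rfl⟩)
          rw [cg_inv' y' Hs hHy v g h hh, map_mul, AlgEquiv.mul_apply, h4]
      rw [← Finset.sum_congr rfl fun i _ => h3 i]
      have h4 : Tendsto (fun a : ℕ => (q : ℝ) - 1 / ((a : ℝ) + 1)) (D.U : Filter ℕ) (nhds ((q : ℝ) - 0)) := by
        refine tendsto_const_nhds.sub ?_
        exact (tendsto_one_div_add_atTop_nhds_zero_nat (𝕜 := ℝ)).mono_left hltop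
      rw [sub_zero] at h4
      refine le_of_tendsto_of_tendsto h4 h2 ?_
      have h6 : ∀ᶠ a in (D.U : Filter ℕ), ∀ i, ∀ g, F.rp (F.s g (∑ j, (γ fun a => l (φ a) i j : F.K) * ξ j)) a =
          s a g (lvg (l (φ a) i) (y' a)) := by
        rw [eventually_all]
        intro i
        rw [eventually_all]
        intro g
        filter_upwards [F.rp_s g (∑ j, (γ fun a => l (φ a) i j : F.K) * ξ j), hlrp i] with a e1 e2
        rw [e1, e2]
      filter_upwards [posH' D, h6] with a ha h6
      have h7 : ∑ i, ∑ v ∈ S, ∑ g, (Real.log (mxn (D.N a v) fun j => D.s a g (y' a j)) / D.H a +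
          -Real.log (D.N a v (F.rp (F.s g (∑ j, (γ fun a => l (φ a) i j : F.K) * ξ j)) a)) / D.H a) = Z a / D.H a := by
        rw [hZ]
        simp only
        rw [Finset.sum_comm, Finset.sum_div]
        refine Finset.sum_congr rfl fun v _ => ?_
        rw [Finset.sum_div]
        refine Finset.sum_congr rfl fun i _ => ?_
        rw [Finset.sum_div]
        refine Finset.sum_congr rfl fun g _ => ?_
        rw [h6 i g]
        show Real.log (mxn (M a v) fun j => s a g (y a j)) / D.H a + -Real.log (M a v (s a g (lvg (l (φ a) i) (y a)))) / D.H a = _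
        ring
      show (q : ℝ) - 1 / ((a : ℝ) + 1) ≤ _
      rw [h7, le_div_iff₀ ha]
      have h8 := (hlow a).le
      have h9 : 0 ≤ c * (φ a * (1 + T a)) := mul_nonneg hc0.le (mul_nonneg (Nat.cast_nonneg _) (by linarith [hT0 a]))
      have h10 : 1 / ((φ a : ℝ) + 1) ≤ 1 / ((a : ℝ) + 1) := by
        refine one_div_le_one_div_of_le (by positivity) ?_
        have : (a : ℝ) ≤ φ a := by exact_mod_cast hφa a
        linarith
      have h11 := mul_le_mul_of_nonneg_right h10 (hH0 a)
      have h12 : (q - 1 / ((φ a : ℝ) + 1)) * Ha a = q * Ha a - 1 / ((φ a : ℝ) + 1) * Ha a := by ring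
      show ((q : ℝ) - 1 / ((a : ℝ) + 1)) * Ha a ≤ Z a
      rw [h12] at h8
      rw [sub_mul]
      linarith
    intro i
    have h3 := Finset.add_sum_erase Finset.univ (fun i => Nat.card Hs * Q i) (Finset.mem_univ i)
    have h4 : ∑ j ∈ Finset.univ.erase i, Nat.card Hs * Q j ≤ ∑ j ∈ Finset.univ.erase i, 1 := Finset.sum_le_sum fun j _ => by
      have h5 := mul_le_mul_of_nonneg_left (hQ1 j) hcs.le
      rwa [mul_one_div_cancel hcs.ne'] at h5
    rw [Finset.sum_const, Finset.card_erase_of_mem (Finset.mem_univ i), Finset.card_univ, Fintype.card_fin, nsmul_eq_mul,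
      mul_one] at h4
    have h6 : ((q - 1 : ℕ) : ℝ) = q - 1 := by
      rw [Nat.cast_sub hq, Nat.cast_one]
    rw [h6] at h4
    rw [div_le_iff₀ hcs, mul_comm]
    linarith
  refine ⟨φ, slk F, IntermediateField.adjoin (slk F) (Set.range ξ), inferInstance, inferInstance, inferInstance, inferInstance,
    inferInstance, inferInstance, γ, crE ξ, Hs.index, S × Fin Hs.index, inferInstance,
    fun α z => omg F α.1 (F.s (ρ α.2) z), fun α => cg D y' α.1 (ρ α.2), 1 / Nat.card Hs, hφ, hr'r, ?_,
    crE_adjoin ξ, ?_, hls, ?_, ?_, hDat, hlE0, hI2⟩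
  · -- one coordinate is one
    obtain ⟨j, hj⟩ := Ultrafilter.eventually_exists_iff.1 (Eventually.of_forall hy1 : ∀ᶠ a in (D.U : Filter ℕ), ∃ j, y a j = 1)
    refine ⟨j, Subtype.ext (F.rp_inj _ _ ?_)⟩
    have h2 := F.rp_alg 1
    filter_upwards [hj, hξ j, h2] with a e1 e2 e3
    rw [map_one, map_one] at e3
    show F.rp (ξ j) a = F.rp ((1 : IntermediateField.adjoin (slk F) (Set.range ξ)) : F.K) a
    rw [e2]
    exact e1.trans e3.symm
  · -- one coordinate is transcendental
    by_contra hcon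
    push Not at hcon
    have h2 : ∀ j, IsAlgebraic (slk F) (crE (k := slk F) ξ j) := fun j => by
      have h3 := hcon j
      rwa [Transcendental, not_not] at h3
    have h3 : ∀ z : IntermediateField.adjoin (slk F) (Set.range ξ), IsAlgebraic (slk F) z := by
      intro z
      have h4 : z ∈ IntermediateField.adjoin (slk F) (Set.range (crE (k := slk F) ξ)) := by
        rw [crE_adjoin]
        trivial
      induction h4 using IntermediateField.adjoin_induction with
      | mem z hz =>
        obtain ⟨j, rfl⟩ := hz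
        exact h2 j
      | algebraMap c => exact isAlgebraic_algebraMap c
      | add a b _ _ ha hb => exact ha.add hb
      | inv a _ ha => exact ha.inv
      | mul a b _ _ ha hb => exact ha.mul hb
    have h4 := hI2 ⟨0, hq⟩
    rw [Finset.sum_eq_zero] at h4
    · have : (0 : ℝ) < 1 / Nat.card Hs := by positivity
      linarith
    · intro α _
      obtain ⟨z, hz, hz0, h5⟩ := hDat.eq α
      have h6 := alg_zero_s (hDat.rv α) hz0 (h3 z)
      have h7 := alg_zero_s (hDat.rv α) (hlE0 ⟨0, hq⟩) (h3 _)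
      linarith
  · intro z
    obtain ⟨b, hb, hbz⟩ := gm_surj F z
    exact ⟨b, (hslow b).2 hb, hbz⟩
  · intro n b hb P
    have h2 : aeval (Sum.elim (fun i => algebraMap (slk F) (IntermediateField.adjoin (slk F) (Set.range ξ)) (γ (b i)))
        (crE (k := slk F) ξ)) P = 0 ↔ aeval (Sum.elim (fun i => (γ (b i) : F.K)) ξ) P = 0 := by
      have h3 := MvPolynomial.comp_aeval_apply (f := Sum.elim (fun i => algebraMap (slk F)
        (IntermediateField.adjoin (slk F) (Set.range ξ)) (γ (b i))) (crE (k := slk F) ξ))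
        ((IntermediateField.adjoin (slk F) (Set.range ξ)).val.restrictScalars k) P
      have h4 : (fun p => ((IntermediateField.adjoin (slk F) (Set.range ξ)).val.restrictScalars k)
          (Sum.elim (fun i => algebraMap (slk F) (IntermediateField.adjoin (slk F) (Set.range ξ)) (γ (b i)))
            (crE (k := slk F) ξ) p)) = Sum.elim (fun i => (γ (b i) : F.K)) ξ := by
        funext p
        rcases p with i | j
        · rfl
        · rfl
      rw [h4] at h3
      rw [← h3]
      exact ZeroMemClass.coe_eq_zero.symm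
    rw [h2, aeval_zero_s F _ (fun a => Sum.elim (fun i => algebraMap k (D.L a) (b i a)) (y' a))
      (by rintro (i | j); exacts [hγ _ (hb i), hξ j])]
    refine eventually_congr (Eventually.of_forall fun a => ?_)
    exact coe_aeval_t (x (φ a)) (y a) (hy a) (fun i => b i a) P

end Pool.Agent.TRI
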