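import Pool.Agent.Helper67.TRI.DatS2
import Pool.Agent.Helper67.SQ4.SEQw
import Pool.Agent.Helper42.SQ.HTg

/-!
# TRI, block S2 (moving forms), part 1: heights of constants, the inequality of Liouville
-/

set_option autoImplicit false

namespace Pool.Agent.TRI

open NumberField Filter Module MvPolynomial Pool.Agent.SQ
open Pool.Agent.Helper64.Vojta (Pl nv sn above)
open Pool.Agent.V2
open Pool.Agent.Chart (fld dg crd hgt val lam)

universe u

section

variable {k : Type u} [Field k] [NumberField k]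

theorem sn_pair67 (v : Pl k) (c : k) : sn v ![c, 1] = max 1 (nv v c) := by
  have h0 := Pool.Agent.Helper64.Vojta.le_sn v ![c, 1] 0
  have h1 := Pool.Agent.Helper64.Vojta.le_sn v ![c, 1] 1
  have h2 : nv v (1 : k) = 1 := Pool.Agent.Helper64.Vojta.nv_one v
  refine le_antisymm ?_ (max_le ?_ h0)
  · unfold sn
    refine ciSup_le fun j => ?_
    fin_cases j
    · exact le_max_right _ _
    · show nv v (1 : k) ≤ _
      rw [h2]
      exact le_max_left _ _
  · rw [← h2]
    exact h1

theorem finS_sn67 {n : ℕ} {m : Fin (n + 1) → k} (hm : m ≠ 0) : FinS fun v => Real.log (sn v m) :=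
  Pool.Agent.Helper64.Vojta.log_support _ (Pool.Agent.Helper64.Vojta.fin_support_sn hm)

theorem lh_gsum67 {n : ℕ} {m : Fin (n + 1) → k} (hm : m ≠ 0) : Height.logHeight m = gsum fun v => Real.log (sn v m) :=
  Pool.Agent.Helper64.Vojta.logHeight_eq hm

theorem pair_ne67 (c : k) : (![c, 1] : Fin 2 → k) ≠ 0 := fun h => one_ne_zero (congrFun h 1)

theorem lh1_gsum67 (c : k) : Height.logHeight₁ c = gsum fun v => Real.log (max 1 (nv v c)) := by
  rw [Height.logHeight₁_eq_logHeight, lh_gsum67 (n := 1) (pair_ne67 c)]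
  simp only [sn_pair67]

theorem finS_max67 (c : k) : FinS fun v => Real.log (max 1 (nv v c)) := by
  have h := finS_sn67 (n := 1) (pair_ne67 c)
  simpa only [sn_pair67] using h

theorem ne_zero67 {n : ℕ} {m : Fin (n + 1) → k} (hm : ∃ j, m j = 1) : m ≠ 0 := by
  rintro rfl
  obtain ⟨j, hj⟩ := hm
  exact zero_ne_one hj

theorem sn_one67 {n : ℕ} {m : Fin (n + 1) → k} (hm : ∃ j, m j = 1) (v : Pl k) : 1 ≤ sn v m := by
  obtain ⟨j, hj⟩ := hm
  have := Pool.Agent.Helper64.Vojta.le_sn v m j
  rwa [hj, Pool.Agent.Helper64.Vojta.nv_one] at this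

/-- the height of a coefficient -/
theorem lh1_le67 {n : ℕ} {m : Fin (n + 1) → k} (hm : ∃ j, m j = 1) (j : Fin (n + 1)) :
    Height.logHeight₁ (m j) ≤ Height.logHeight m := by
  rw [lh1_gsum67, lh_gsum67 (ne_zero67 hm)]
  refine gsum_mono (finS_max67 _) (finS_sn67 (ne_zero67 hm)) fun v => ?_
  refine Real.log_le_log (lt_max_of_lt_left one_pos) (max_le (sn_one67 hm v) ?_)
  exact Pool.Agent.Helper64.Vojta.le_sn v m j

variable {G : Type*} [Group G] [Fintype G]

/-- the height of a constant -/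
theorem htg_const67 {L : Type u} [Field L] [Algebra k L] {s : G →* (L ≃ₐ[k] L)} {N : Pl k → L → ℝ} (h : QSG s N) (c : k) :
    htg s N (algebraMap k L c) = Fintype.card G * Height.logHeight₁ c := by
  rw [lh1_gsum67, ← gsum_const_mul]
  unfold htg
  congr 1
  funext v
  simp only [AlgEquiv.commutes, h.ext]
  rw [Finset.sum_const, Finset.card_univ, nsmul_eq_mul]

end

end Pool.Agent.TRI
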