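import Pool.Agent.Helper67.TRI.ArithS2

/-!
# TRI, block S2, part 3: germs of slow sequences; algebraic elements
-/

set_option autoImplicit false

namespace Pool.Agent.TRI

open NumberField Filter Module MvPolynomial Pool.Agent.SQ
open Pool.Agent.Helper64.Vojta (Pl nv sn above)
open Pool.Agent.Chart (fld dg crd hgt val lam)

universe u

section

variable {k E : Type*} [Field k] [Field E] [Algebra k E]

private theorem rv_one_s {ω : E → ℝ} (h : RV k ω) : ω 1 = 0 := by
  have h2 := h.mul 1 1 one_ne_zero one_ne_zero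
  rw [mul_one] at h2
  linarith

private theorem rv_pow_s {ω : E → ℝ} (h : RV k ω) {y : E} (hy : y ≠ 0) (n : ℕ) : ω (y ^ n) = n * ω y := by
  induction n with
  | zero => rw [pow_zero, rv_one_s h, Nat.cast_zero, zero_mul]
  | succ n ih =>
    rw [pow_succ, h.mul _ _ (pow_ne_zero n hy) hy, ih]
    push_cast
    ring

private theorem alg_nonneg_s {ω : E → ℝ} (h : RV k ω) {y : E} (hy : y ≠ 0) (ha : IsAlgebraic k y) : 0 ≤ ω y := by
  by_contra hneg
  push Not at hneg
  have hint : IsIntegral k y := ha.isIntegral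
  have hm := minpoly.monic hint
  have hd : 0 < (minpoly k y).natDegree := minpoly.natDegree_pos hint
  obtain ⟨n, hn⟩ : ∃ n, (minpoly k y).natDegree = n + 1 := ⟨_, (Nat.succ_pred_eq_of_pos hd).symm⟩
  have h1 := minpoly.aeval k y
  rw [Polynomial.aeval_eq_sum_range, hn, Finset.sum_range_succ] at h1
  have hlc : (minpoly k y).coeff (n + 1) = 1 := by
    rw [← hn]
    exact hm.coeff_natDegree
  rw [hlc, one_smul] at h1
  have h2 : ∑ i ∈ Finset.range (n + 1), (minpoly k y).coeff i • y ^ i ∈ lev h (n * ω y) := by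
    refine Submodule.sum_mem _ fun i hi => ?_
    have hi' : i ≤ n := Nat.lt_succ_iff.1 (Finset.mem_range.1 hi)
    by_cases hc : (minpoly k y).coeff i = 0
    · rw [hc, zero_smul]
      exact Submodule.zero_mem _
    · right
      rw [h.smul _ _ hc (pow_ne_zero _ hy), rv_pow_s h hy]
      have : (i : ℝ) ≤ n := by exact_mod_cast hi'
      nlinarith
  have h3 : ∑ i ∈ Finset.range (n + 1), (minpoly k y).coeff i • y ^ i = (-1 : k) • y ^ (n + 1) := by
    rw [neg_smul, one_smul]
    linear_combination h1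
  rw [h3] at h2
  rcases h2 with h2 | h2
  · exact pow_ne_zero (n + 1) hy ((smul_eq_zero.1 h2).resolve_left (by simp))
  · rw [h.smul _ _ (by simp) (pow_ne_zero _ hy), rv_pow_s h hy] at h2
    push_cast at h2
    nlinarith

/-- a valuation is trivial on algebraic elements -/
theorem alg_zero_s {ω : E → ℝ} (h : RV k ω) {y : E} (hy : y ≠ 0) (ha : IsAlgebraic k y) : ω y = 0 := by
  have h1 := alg_nonneg_s h hy ha
  have h2 := alg_nonneg_s h (inv_ne_zero hy) ha.inv
  have h3 := h.mul y y⁻¹ hy (inv_ne_zero hy)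
  rw [mul_inv_cancel₀ hy, rv_one_s h] at h3
  linarith

end

section

variable {k : Type u} [Field k] [NumberField k] {G : Type} [Group G] [Fintype G] {D : SqG k G} (F : GFG D)

theorem rp_aeval_s {σ : Type*} (lam : σ → F.K) (z : ∀ a, σ → D.L a)
    (hz : ∀ p, ∀ᶠ a in (D.U : Filter ℕ), F.rp (lam p) a = z a p) (P : MvPolynomial σ k) :
    ∀ᶠ a in (D.U : Filter ℕ), F.rp (aeval lam P) a = aeval (z a) P := by
  induction P using MvPolynomial.induction_on with
  | C c =>
    filter_upwards [F.rp_alg c] with a h1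
    rw [aeval_C, aeval_C, h1]
  | add p q hp hq =>
    filter_upwards [hp, hq, F.rp_add (aeval lam p) (aeval lam q)] with a h1 h2 h3
    rw [map_add, map_add, h3, h1, h2]
  | mul_X p j hp =>
    filter_upwards [hp, hz j, F.rp_mul (aeval lam p) (lam j)] with a h1 h2 h3
    rw [map_mul, map_mul, aeval_X, aeval_X, h3, h1, h2]

theorem aeval_zero_s {σ : Type*} (lam : σ → F.K) (z : ∀ a, σ → D.L a)
    (hz : ∀ p, ∀ᶠ a in (D.U : Filter ℕ), F.rp (lam p) a = z a p) (P : MvPolynomial σ k) :
    aeval lam P = 0 ↔ ∀ᶠ a in (D.U : Filter ℕ), aeval (z a) P = 0 := by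
  have h1 := rp_aeval_s F lam z hz P
  constructor
  · intro h
    rw [h] at h1
    filter_upwards [rp_zero' F, h1] with n h2 h3
    rw [← h3, h2]
  · intro h
    refine F.rp_inj _ _ ?_
    filter_upwards [rp_zero' F, h1, h] with n h2 h3 h4
    rw [h3, h4, h2]

/-- the constants `b` have height `o(H)` -/
def SlD (D : SqG k G) (b : ℕ → k) : Prop := SlowG D fun a => algebraMap k (D.L a) (b a)

theorem exists_germ_s (b : ℕ → k) (hb : SlD D b) :
    ∃ z : slk F, ∀ᶠ a in (D.U : Filter ℕ), F.rp (z : F.K) a = algebraMap k (D.L a) (b a) := by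
  obtain ⟨w, hw⟩ := F.rp_surj (fun a => algebraMap k (D.L a) (b a)) ⟨1, hb 1 one_pos⟩
  refine ⟨⟨w, mem_slk.2 ⟨fun g => ?_, hb.congr hw⟩⟩, hw⟩
  apply F.rp_inj
  filter_upwards [F.rp_s g w, hw] with a h2 h3
  rw [h2, h3]
  exact AlgEquiv.commutes _ _

open Classical in
/-- the germ of a slow sequence -/
noncomputable def gm (b : ℕ → k) : slk F := if h : SlD D b then (exists_germ_s F b h).choose else 0

theorem gm_rp (b : ℕ → k) (hb : SlD D b) :
    ∀ᶠ a in (D.U : Filter ℕ), F.rp (gm F b : F.K) a = algebraMap k (D.L a) (b a) := by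
  unfold gm
  rw [dif_pos hb]
  exact (exists_germ_s F b hb).choose_spec

theorem gm_surj (z : slk F) : ∃ b, SlD D b ∧ gm F b = z := by
  classical
  have h1 : ∀ᶠ a in (D.U : Filter ℕ), ∃ c : k, F.rp (z : F.K) a = algebraMap k (D.L a) c := by
    have h2 : ∀ᶠ a in (D.U : Filter ℕ), ∀ g, D.s a g (F.rp (z : F.K) a) = F.rp (z : F.K) a := by
      rw [eventually_all]
      intro g
      filter_upwards [F.rp_s g (z : F.K)] with a ha
      rw [← ha, z.2.1 g]
    filter_upwards [h2] with a ha
    exact (D.qs a).fix _ ha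
  let b : ℕ → k := fun a => if h : ∃ c : k, F.rp (z : F.K) a = algebraMap k (D.L a) c then h.choose else 0
  have hb : ∀ᶠ a in (D.U : Filter ℕ), F.rp (z : F.K) a = algebraMap k (D.L a) (b a) := by
    filter_upwards [h1] with a ha
    simp only [b]
    rw [dif_pos ha]
    exact ha.choose_spec
  have hs : SlD D b := SlowG.congr z.2.2 (by
    filter_upwards [hb] with a ha
    exact ha.symm)
  refine ⟨b, hs, Subtype.ext (F.rp_inj _ _ ?_)⟩
  filter_upwards [hb, gm_rp F b hs] with a h2 h3
  rw [h3, h2]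

end

end Pool.Agent.TRI
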