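import Pool.Agent.Helper67.TRI.ArithB
import Pool.Agent.Helper67.SQ4.THMm
import Pool.Agent.Helper42.SQ.SUBs
import Pool.Agent.Helper42.SQ.OMs

/-!
# TRI: the data from the subspace theorem over an arbitrary base field, and over the slow germs
-/

set_option autoImplicit false

namespace Pool.Agent.TRI

open Module Pool.Agent.SQ

universe u

section

variable {k K : Type u} [Field k] [Field K] [Algebra k K]

private theorem rv_one67 {ω : K → ℝ} (h : RV k ω) : ω 1 = 0 := by
  have h2 := h.mul 1 1 one_ne_zero one_ne_zero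
  rw [mul_one] at h2
  linarith

/-- the values on `V ^ m` -/
private theorem val_pow67s {V : Submodule k K} {ω : K → ℝ} (h : RV k ω) {c : ℝ} (hV : ∀ x ∈ V, x ≠ 0 → 0 ≤ ω x + c)
    (m : ℕ) : ∀ x ∈ V ^ m, x ≠ 0 → -(m * c) ≤ ω x := by
  have h1 := rv_one67 h
  have key : ∀ m : ℕ, V ^ m ≤ lev h (-(m * c)) := by
    intro m
    induction m with
    | zero =>
      rw [pow_zero, Submodule.one_le]
      refine Or.inr ?_
      rw [h1]
      simp
    | succ m ih =>
      rw [pow_succ, Submodule.mul_le]
      intro x hx y hy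
      by_cases hx0 : x = 0
      · rw [hx0, zero_mul]
        exact Submodule.zero_mem _
      by_cases hy0 : y = 0
      · rw [hy0, mul_zero]
        exact Submodule.zero_mem _
      refine Or.inr ?_
      rw [h.mul x y hx0 hy0]
      have h3 := hV y hy hy0
      rcases ih hx with h4 | h4
      · exact absurd h4 hx0
      · push_cast
        linarith
  intro x hx hx0
  rcases key m hx with h4 | h4
  · exact absurd h4 hx0
  · exact h4

private theorem rv_prod67 {ω : K → ℝ} (h : RV k ω) {α : Type*} (t : Finset α) (z : α → K) (hz : ∀ a ∈ t, z a ≠ 0) :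
    ω (∏ a ∈ t, z a) = ∑ a ∈ t, ω (z a) := by
  classical
  induction t using Finset.induction_on with
  | empty => rw [Finset.prod_empty, Finset.sum_empty, rv_one67 h]
  | insert a t ha ih =>
    rw [Finset.prod_insert ha, Finset.sum_insert ha, h.mul _ _ (hz a (Finset.mem_insert_self _ _))
      (Finset.prod_ne_zero_iff.2 fun b hb => hz b (Finset.mem_insert_of_mem hb)),
      ih fun b hb => hz b (Finset.mem_insert_of_mem hb)]

variable {G : Type} [Group G] [Fintype G]

private theorem map_pow67 (τ : K ≃ₐ[k] K) (V : Submodule k K) (m : ℕ) :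
    (V ^ m).map τ.toLinearMap = V.map τ.toLinearMap ^ m := Submodule.map_pow V (τ : K →ₐ[k] K) m

theorem dat_abs [CharZero k] {N : ℕ} (s : G →* (K ≃ₐ[k] K)) {P : Type u} [Fintype P] (ω : P → K → ℝ) (hω : ∀ v, RV k (ω v))
    (c : P → G → ℝ) (ξ : Fin (N + 1) → K)
    (ge : ∀ v g, ∀ z ∈ Submodule.span k (Set.range ξ), z ≠ 0 → 0 ≤ ω v (s g z) + c v g)
    (eq : ∀ v g, ∃ z ∈ Submodule.span k (Set.range ξ), z ≠ 0 ∧ ω v (s g z) + c v g = 0)
    (hS : ∀ (m : ℕ) (E : Submodule k K), E ≤ (∏ g, (Submodule.span k (Set.range ξ)).map (s g).toLinearMap) ^ m →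
      (∀ z ∈ E, ∀ g, s g z = z) → ∀ (n : P → ℕ) (z : ∀ v, Fin (n v) → K), (∀ v, LinearIndependent k (z v)) →
      (∀ v i, z v i ∈ E) → ∑ v, ∑ i, (ω v (z v i) + m * ∑ g, c v g) ≤ m * finrank k E)
    (Hs : Subgroup G) (hH : ∀ h ∈ Hs, ∀ z ∈ IntermediateField.adjoin k (Set.range ξ), s h z = z)
    (hcH : ∀ v g, ∀ h ∈ Hs, c v (g * h) = c v g) {r : ℕ} (hr : 0 < r)
    (hHr : Nat.card Hs * r = Fintype.card G) (ρ : Fin r → G) (hρ : ∀ g, ∃! j, (ρ j)⁻¹ * g ∈ Hs) :
    Dat (Submodule.span k (Set.range (crE (k := k) ξ)))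
      (fun (α : P × Fin r) (z : IntermediateField.adjoin k (Set.range ξ)) => ω α.1 (s (ρ α.2) (z : K)))
      (fun α => c α.1 (ρ α.2)) r (1 / Nat.card Hs) := by
  classical
  have hc0 : (0 : ℝ) < Nat.card Hs := by exact_mod_cast Nat.card_pos
  have hr0 : (0 : ℝ) < r := by exact_mod_cast hr
  have hHr' : (Nat.card Hs : ℝ) * r = Fintype.card G := by exact_mod_cast hHr
  obtain ⟨V, hV⟩ : ∃ V, V = Submodule.span k (Set.range ξ) := ⟨_, rfl⟩
  rw [← hV] at ge eq hS
  have hfV : FiniteDimensional k V := by
    rw [hV]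
    exact FiniteDimensional.span_of_finite k (Set.finite_range ξ)
  have hsp : ∀ z ∈ Submodule.span k (Set.range (crE (k := k) ξ)), (z : K) ∈ V := by
    intro z hz
    rw [hV, ← crE_span1 (k := k) ξ]
    exact ⟨z, hz, rfl⟩
  have hspm : ∀ m : ℕ, ∀ z ∈ Submodule.span k (Set.range (crE (k := k) ξ)) ^ m, (z : K) ∈ V ^ m := by
    intro m z hz
    rw [hV, ← crE_span (k := k) ξ m]
    exact ⟨z, hz, rfl⟩
  have hvm : ∀ (m : ℕ) v g, ∀ z ∈ V ^ m, z ≠ 0 → -(m * c v g) ≤ ω v (s g z) := fun m v g =>
    val_pow67s (ω := fun z => ω v (s g z)) ((hω v).comp (s g)) (ge v g) m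
  refine ⟨hr, by positivity, ?_, ?_, ?_, ?_, ?_⟩
  · intro α
    have h1 := (hω α.1).comp (s (ρ α.2))
    refine ⟨fun a b ha hb => ?_, fun a b ha hb hab => ?_, fun c hc => ?_⟩
    · exact h1.mul a b (by simpa using ha) (by simpa using hb)
    · exact h1.add a b (by simpa using ha) (by simpa using hb) (by exact_mod_cast hab)
    · exact h1.alg c hc
  · intro α z hz hz0
    exact ge _ _ _ (hsp z hz) (by simpa using hz0)
  · intro α
    obtain ⟨z, hz, hz0, h⟩ := eq α.1 (ρ α.2)
    rw [hV, ← crE_span1 (k := k) ξ] at hz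
    obtain ⟨w, hw, rfl⟩ := hz
    exact ⟨w, hw, fun h0 => hz0 (by rw [h0]; exact map_zero _), h⟩
  · -- the inequality for the norm of `z`
    intro m z hz hz0
    have hz0' : (z : K) ≠ 0 := by simpa using hz0
    have hzm := hspm m z hz
    obtain ⟨w, hw⟩ : ∃ w, w = ∏ g, s g (z : K) := ⟨_, rfl⟩
    have hw0 : w ≠ 0 := by
      rw [hw]
      exact Finset.prod_ne_zero_iff.2 fun g _ => (map_ne_zero (s g)).2 hz0'
    have hwinv : ∀ g, s g w = w := by
      intro g
      rw [hw, map_prod]
      exact Fintype.prod_bijective (fun h => g * h) (Group.mulLeft_bijective g) _ _ fun h => by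
        rw [map_mul, AlgEquiv.mul_apply]
    have hwm : w ∈ (∏ g, V.map (s g).toLinearMap) ^ m := by
      rw [hw]
      have h1 : ∀ t : Finset G, ∏ g ∈ t, s g (z : K) ∈ (∏ g ∈ t, V.map (s g).toLinearMap) ^ m := by
        intro t
        induction t using Finset.induction_on with
        | empty =>
          rw [Finset.prod_empty, Finset.prod_empty, one_pow]
          exact Submodule.one_le.1 le_rfl
        | insert a t ha ih =>
          rw [Finset.prod_insert ha, Finset.prod_insert ha, mul_pow]
          refine Submodule.mul_mem_mul ?_ ih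
          rw [← map_pow67]
          exact ⟨z, hzm, rfl⟩
      exact h1 Finset.univ
    have h1 := hS m (Submodule.span k {w}) ((Submodule.span_singleton_le_iff_mem _ _).2 hwm) (by
      intro y hy g
      obtain ⟨a, rfl⟩ := Submodule.mem_span_singleton.1 hy
      rw [map_smul, hwinv]) (fun _ => 1) (fun _ _ => w) (fun v => LinearIndependent.of_subsingleton 0 hw0)
      (fun v i => Submodule.mem_span_singleton_self w)
    rw [finrank_span_singleton hw0] at h1
    simp only [Finset.univ_unique, Finset.sum_singleton, Nat.cast_one, mul_one] at h1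
    have h2 : ∀ v, ω v w + m * ∑ g, c v g = Nat.card Hs * ∑ j, (ω v (s (ρ j) (z : K)) + m * c v (ρ j)) := by
      intro v
      rw [hw, rv_prod67 (hω v) _ _ fun g _ => (map_ne_zero (s g)).2 hz0', Finset.mul_sum, ← Finset.sum_add_distrib]
      refine sum_rep' Hs ρ hρ (fun g => ω v (s g (z : K)) + m * c v g) fun h hh g => ?_
      rw [hcH v g h hh, map_mul, AlgEquiv.mul_apply, hH h hh z z.2]
    rw [Finset.sum_congr rfl fun v _ => h2 v, ← Finset.mul_sum] at h1
    rw [Fintype.sum_prod_type, mul_one_div, le_div_iff₀ hc0, mul_comm]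
    exact h1
  · intro m hm n z hzi hz B hB
    have hm0 : (0 : ℝ) < m := by exact_mod_cast hm
    obtain ⟨W, hW⟩ : ∃ W, W = V ^ m := ⟨_, rfl⟩
    have hfW : FiniteDimensional k W := by
      rw [hW]
      exact (Submodule.fg_iff_finiteDimensional _).1 (((Submodule.fg_iff_finiteDimensional V).2 inferInstance).pow m)
    have h1 := thm_m s (fun v z => ω v z / m) (fun v => ⟨fun x y hx hy => by rw [(hω v).mul x y hx hy]; ring,
      fun x y hx hy hxy => by
        rw [min_div_div_right hm0.le]
        exact div_le_div_of_nonneg_right ((hω v).add x y hx hy hxy) hm0.le,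
      fun c hc => by rw [(hω v).alg c hc, zero_div]⟩) c W (by
        intro v g x hx hx0
        rw [hW] at hx
        have h2 := hvm m v g x hx hx0
        have h3 : -(c v g) ≤ ω v (s g x) / m := by
          rw [le_div_iff₀ hm0]
          linarith
        linarith) (by
        intro m' E hE hEs n z hz hzE
        have h2 := hS (m * m') E (by
          refine hE.trans (le_of_eq ?_)
          rw [pow_mul]
          congr 1
          rw [← Finset.prod_pow]
          exact Finset.prod_congr rfl fun g _ => by rw [hW, map_pow67]) hEs n z hz hzE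
        push_cast at h2
        have h3 : ∑ v, ∑ i, (ω v (z v i) / m + m' * ∑ g, c v g) = (∑ v, ∑ i, (ω v (z v i) + m * m' * ∑ g, c v g)) / m := by
          rw [Finset.sum_div]
          refine Finset.sum_congr rfl fun v _ => ?_
          rw [Finset.sum_div]
          refine Finset.sum_congr rfl fun i _ => ?_
          field_simp
        rw [h3, div_le_iff₀ hm0]
        linarith) Hs (by
        intro h hh x hx
        refine hH h hh x ?_
        have h2 : W ≤ (IntermediateField.adjoin k (Set.range ξ)).toSubalgebra.toSubmodule := by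
          have h0 : V ≤ (IntermediateField.adjoin k (Set.range ξ)).toSubalgebra.toSubmodule := by
            rw [hV]
            exact Submodule.span_le.2 fun y hy => IntermediateField.subset_adjoin k _ hy
          rw [hW]
          refine (pow_le_pow_left' h0 m).trans ?_
          have h3 : ∀ m : ℕ, (IntermediateField.adjoin k (Set.range ξ)).toSubalgebra.toSubmodule ^ m ≤
              (IntermediateField.adjoin k (Set.range ξ)).toSubalgebra.toSubmodule := by
            intro m
            induction m with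
            | zero =>
              rw [pow_zero, Submodule.one_le]
              exact one_mem (IntermediateField.adjoin k (Set.range ξ))
            | succ m ih =>
              rw [pow_succ, Submodule.mul_le]
              intro a ha b hb
              exact mul_mem (S := IntermediateField k K) (ih ha) hb
          exact h3 m
        exact h2 hx) hcH (fun _ => False) (fun _ => ∅) (fun _ => ∅) (fun _ h => h.elim) ρ hρ
      (fun _ _ => 0) (fun _ _ => Fin.elim0) (fun _ _ => linearIndependent_empty_type) (fun _ _ i => i.elim0)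
      (fun v j => B (v, j) / m) (fun v j => div_nonneg (hB _) hm0.le) (fun v j => n (v, j)) (fun v j i => (z (v, j) i : K))
      (fun v j => (hzi (v, j)).map' (IntermediateField.adjoin k (Set.range ξ)).val.toLinearMap
            (LinearMap.ker_eq_bot.2 (IntermediateField.adjoin k (Set.range ξ)).val.toRingHom.injective))
      (fun v j i => by rw [hW]; exact hspm m _ (hz (v, j) i))
    simp only [if_false] at h1
    have hfr : finrank k W = finrank k ↥(Submodule.span k (Set.range (crE (k := k) ξ)) ^ m) := by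
      rw [crE_finrank, hW, hV]
    rw [hfr] at h1
    have h2 : (∑ v, (Fintype.card G : ℝ) ^ 2 * ∑ j, (∑ i, min (B (v, j) / m) (ω v (s (ρ j) (z (v, j) i : K)) / m + c v (ρ j)) -
        (1 - 1 / (r : ℝ)) * (B (v, j) / m) * finrank k ↥(Submodule.span k (Set.range (crE (k := k) ξ)) ^ m))) * m =
        (∑ α : P × Fin r, (∑ i, min (B α) (ω α.1 (s (ρ α.2) (z α i : K)) + m * c α.1 (ρ α.2)) -
        (1 - 1 / (r : ℝ)) * B α * finrank k ↥(Submodule.span k (Set.range (crE (k := k) ξ)) ^ m))) *
        (Fintype.card G : ℝ) ^ 2 := by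
      rw [Fintype.sum_prod_type, Finset.sum_mul, Finset.sum_mul]
      refine Finset.sum_congr rfl fun v _ => ?_
      rw [mul_assoc, mul_comm]
      congr 1
      · rw [Finset.sum_mul]
        refine Finset.sum_congr rfl fun j _ => ?_
        have h4 : ∀ i, min (B (v, j)) (ω v (s (ρ j) (z (v, j) i : K)) + m * c v (ρ j)) =
            min (B (v, j) / m) (ω v (s (ρ j) (z (v, j) i : K)) / m + c v (ρ j)) * m := fun i => by
          rw [min_mul_of_nonneg _ _ hm0.le, div_mul_cancel₀ _ hm0.ne', add_mul, div_mul_cancel₀ _ hm0.ne', mul_comm (c v (ρ j))]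
        rw [Finset.sum_congr rfl fun i _ => h4 i, ← Finset.sum_mul]
        field_simp
    have hG : (0 : ℝ) < Fintype.card G := by exact_mod_cast Fintype.card_pos
    have h3 : (finrank k ↥(Submodule.span k (Set.range (crE (k := k) ξ)) ^ m) : ℝ) * m * (1 / Nat.card Hs) / r =
        (Fintype.card G * finrank k ↥(Submodule.span k (Set.range (crE (k := k) ξ)) ^ m) * m) / (Fintype.card G : ℝ) ^ 2 := by
      rw [← hHr']
      field_simp
    rw [h3, le_div_iff₀ (by positivity), ← h2]
    exact mul_le_mul_of_nonneg_right h1 hm0.le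

end

end Pool.Agent.TRI
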