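import Pool.Agent.Helper67.TRI.DatS

/-!
# TRI: the data over the slow germs
-/

set_option autoImplicit false

namespace Pool.Agent.TRI

open Module Filter Pool.Agent.SQ
open Pool.Agent.Helper64.Vojta (Pl nv sn above)

universe u

variable {k : Type u} [Field k] [NumberField k] {G : Type} [Group G] [Fintype G] {D : SqG k G} (F : GFG D) {N : ℕ}
  (x : ∀ n, Fin (N + 1) → D.L n) (ξ : Fin (N + 1) → F.K)
  (hξ : ∀ j, ∀ᶠ n in (D.U : Filter ℕ), F.rp (ξ j) n = x n j)

include hξ

/-- `dat'` over the field of the slow germs -/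
theorem dat_s (hx : Ptg D x) (Hs : Subgroup G) (hH : ∀ a, ∀ h ∈ Hs, ∀ j, D.s a h (x a j) = x a j) {r : ℕ} (hr : 0 < r)
    (hHr : Nat.card Hs * r = Fintype.card G) (ρ : Fin r → G) (hρ : ∀ g, ∃! j, (ρ j)⁻¹ * g ∈ Hs) (S : Finset (Pl k)) :
    Dat (Submodule.span (slk F) (Set.range (crE (k := slk F) ξ)))
      (fun (α : S × Fin r) (z : IntermediateField.adjoin (slk F) (Set.range ξ)) => omg F α.1 (F.s (ρ α.2) (z : F.K)))
      (fun α => cg D x α.1 (ρ α.2)) r (1 / Nat.card Hs) := by
  classical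
  have hcz : CharZero (slk F) := charZero_of_injective_algebraMap (algebraMap k (slk F)).injective
  refine dat_abs (ss F) (fun (v : S) => omg F (v : Pl k)) (fun v => omg_RVs F v) (fun v g => cg D x v g) ξ
    (fun v g z hz hz0 => omgs_nonneg F x hx ξ hξ v g z hz hz0) (fun v g => omgs_attained F x hx ξ hξ v g) ?_ Hs ?_
    (fun v g h hh => cg_inv' x Hs hH v g h hh) hr hHr ρ hρ
  · intro m E hE hEs n z hz hzE
    have hbot : ∀ n, ∀ h ∈ (⊥ : Subgroup G), ∀ j, D.s n h (x n j) = x n j := by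
      intro n h hh j
      rw [Subgroup.mem_bot] at hh
      rw [hh, map_one]
      rfl
    have e1 : ∏ q : G ⧸ (⊥ : Subgroup G), (Submodule.span (slk F) (Set.range ξ)).map (ss F q.out).toLinearMap =
        ∏ g, (Submodule.span (slk F) (Set.range ξ)).map (ss F g).toLinearMap := by
      refine Fintype.prod_bijective (fun q : G ⧸ (⊥ : Subgroup G) => q.out) ⟨Quotient.out_injective, fun g => ?_⟩ _ _ fun q => rfl
      refine ⟨(g : G ⧸ (⊥ : Subgroup G)), ?_⟩
      have h1 : ((g : G ⧸ (⊥ : Subgroup G)).out : G ⧸ (⊥ : Subgroup G)) = (g : G ⧸ (⊥ : Subgroup G)) := QuotientGroup.out_eq' _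
      rw [QuotientGroup.eq, Subgroup.mem_bot] at h1
      exact inv_mul_eq_one.1 h1
    have h1 := sub_ts F x hx ξ hξ hbot S m E (by rw [e1]; exact hE) hEs n z hz hzE
    simpa only [Nat.card_eq_fintype_card, Fintype.card_unique, Nat.cast_one, one_mul, Subgroup.card_bot] using h1
  · intro h hh z hz
    rw [ss_apply]
    induction hz using IntermediateField.adjoin_induction with
    | mem z hz =>
      obtain ⟨j, rfl⟩ := hz
      refine F.rp_inj _ _ ?_
      filter_upwards [F.rp_s h (ξ j), hξ j] with n h1 h2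
      rw [h1, h2, hH n h hh j]
    | algebraMap c => exact c.2.1 h
    | add a b _ _ ha hb => rw [map_add, ha, hb]
    | inv a _ ha => rw [map_inv₀, ha]
    | mul a b _ _ ha hb => rw [map_mul, ha, hb]

end Pool.Agent.TRI
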